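import Pool.Agent.Lib.MP_6ff8d9_an_h42.M5

/-!
# Second order contact: the Wronskian identity
-/

open Metric Filter Topology MvPolynomial
open scoped ComplexConjugate

namespace Pool.Agent.Lib.MP_6ff8d9_an.Hom

noncomputable section

namespace M2

theorem sph_le {n : ℕ} {ζ : Fin n → ℂ} (hζ : ζ ∈ Sph n) (k : Fin n) : ‖ζ k‖ ≤ 1 := by
  have h : ∑ i, ‖ζ i‖ ^ 2 = 1 := hζ
  have h7 : ‖ζ k‖ ^ 2 ≤ ∑ i, ‖ζ i‖ ^ 2 :=
    Finset.single_le_sum (f := fun i => ‖ζ i‖ ^ 2) (fun i _ => by positivity) (Finset.mem_univ k)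
  rw [h] at h7
  nlinarith [norm_nonneg (ζ k)]

/-- the tangent direction `e_i - conj (ζ_i) ζ` -/
def eta {n : ℕ} (ζ : Fin n → ℂ) (i l : Fin n) : ℂ := (if l = i then 1 else 0) - conj (ζ i) * ζ l

/-- the derivative in the direction `eta` -/
def Dd {n : ℕ} (ζ : Fin n → ℂ) (i : Fin n) (p : MvPolynomial (Fin n) ℂ) : ℂ :=
  ∑ l, eta ζ i l * eval ζ (pderiv l p)

/-- the points near `ζ` -/
def zl {n : ℕ} (ζ : Fin n → ℂ) (i : Fin n) (c : ℂ) (l : Fin n) : ℂ :=
  (1 - (‖c‖ ^ 2 : ℝ)) * ζ l + c * eta ζ i l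

theorem eta_orth {n : ℕ} {ζ : Fin n → ℂ} (hζ : ζ ∈ Sph n) (i : Fin n) :
    ∑ l, eta ζ i l * conj (ζ l) = 0 := by
  have h : ∑ i, ‖ζ i‖ ^ 2 = 1 := hζ
  have h1 : ∑ l, ζ l * conj (ζ l) = 1 := by
    have : ∑ l, ζ l * conj (ζ l) = ((∑ i, ‖ζ i‖ ^ 2 : ℝ) : ℂ) := by
      push_cast
      refine Finset.sum_congr rfl fun l _ => ?_
      rw [Complex.mul_conj, Complex.normSq_eq_norm_sq]
      push_cast
      rfl
    rw [this, h]
    simp
  simp only [eta, sub_mul, Finset.sum_sub_distrib, ite_mul, one_mul, zero_mul, mul_assoc,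
    ← Finset.mul_sum]
  rw [h1]
  simp

theorem eta_norm {n : ℕ} {ζ : Fin n → ℂ} (hζ : ζ ∈ Sph n) (i : Fin n) :
    ∑ l, ‖eta ζ i l‖ ^ 2 ≤ 1 := by
  have h0 := eta_orth hζ i
  have h1 : ∑ l, eta ζ i l * conj (eta ζ i l) = conj (eta ζ i i) := by
    have h3 : ∀ l, eta ζ i l * conj (eta ζ i l) =
        (if l = i then eta ζ i l else 0) - ζ i * (eta ζ i l * conj (ζ l)) := by
      intro l
      have : conj (eta ζ i l) = (if l = i then 1 else 0) - ζ i * conj (ζ l) := by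
        rw [eta, map_sub, map_mul, Complex.conj_conj]
        by_cases hl : l = i
        · simp [hl]
        · simp [hl]
      rw [this]
      by_cases hl : l = i
      · simp only [hl, if_true]
        ring
      · simp only [hl, if_false]
        ring
    rw [Finset.sum_congr rfl fun l _ => h3 l, Finset.sum_sub_distrib, ← Finset.mul_sum, h0]
    simp only [Finset.sum_ite_eq', Finset.mem_univ, if_true, mul_zero, sub_zero]
    rw [eta]
    simp only [if_true, map_sub, map_one, map_mul, Complex.conj_conj]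
    ring
  have h2 : ((∑ l, ‖eta ζ i l‖ ^ 2 : ℝ) : ℂ) = ((1 - ‖ζ i‖ ^ 2 : ℝ) : ℂ) := by
    have h3 : ((∑ l, ‖eta ζ i l‖ ^ 2 : ℝ) : ℂ) = ∑ l, eta ζ i l * conj (eta ζ i l) := by
      push_cast
      refine Finset.sum_congr rfl fun l _ => ?_
      rw [Complex.mul_conj, Complex.normSq_eq_norm_sq]
      push_cast
      rfl
    rw [h3, h1, eta]
    simp only [if_true, map_sub, map_one, map_mul, Complex.conj_conj]
    rw [Complex.mul_conj, Complex.normSq_eq_norm_sq]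
    push_cast
    rfl
  have h3 : ∑ l, ‖eta ζ i l‖ ^ 2 = 1 - ‖ζ i‖ ^ 2 := by exact_mod_cast h2
  rw [h3]
  nlinarith [norm_nonneg (ζ i)]

theorem eta_le {n : ℕ} {ζ : Fin n → ℂ} (hζ : ζ ∈ Sph n) (i k : Fin n) : ‖eta ζ i k‖ ≤ 1 := by
  have h := eta_norm hζ i
  have h7 : ‖eta ζ i k‖ ^ 2 ≤ ∑ l, ‖eta ζ i l‖ ^ 2 :=
    Finset.single_le_sum (f := fun l => ‖eta ζ i l‖ ^ 2) (fun i _ => by positivity)
      (Finset.mem_univ k)
  nlinarith [norm_nonneg (eta ζ i k)]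

/-- the points `zl` are in the closed ball -/
theorem zl_mem {n : ℕ} {ζ : Fin n → ℂ} (hζ : ζ ∈ Sph n) (i : Fin n) {c : ℂ} (hc : ‖c‖ ≤ 1) :
    ∑ l, ‖zl ζ i c l‖ ^ 2 ≤ 1 := by
  have h : ∑ i, ‖ζ i‖ ^ 2 = 1 := hζ
  set t : ℝ := ‖c‖ ^ 2 with ht
  have ht0 : 0 ≤ t := by positivity
  have ht1 : t ≤ 1 := by
    rw [ht]
    exact pow_le_one₀ (norm_nonneg _) hc
  have h1 : ∀ l, ‖zl ζ i c l‖ ^ 2 = (1 - t) ^ 2 * ‖ζ l‖ ^ 2 + t * ‖eta ζ i l‖ ^ 2 +
      2 * (1 - t) * (c * (eta ζ i l * conj (ζ l))).re := by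
    intro l
    rw [← Complex.normSq_eq_norm_sq, zl, Complex.normSq_add, Complex.normSq_mul,
      Complex.normSq_mul, ← ht]
    have h2 : Complex.normSq (1 - (t : ℂ)) = (1 - t) ^ 2 := by
      have : (1 - (t : ℂ)) = ((1 - t : ℝ) : ℂ) := by push_cast; rfl
      rw [this, Complex.normSq_ofReal]
      ring
    have h3 : Complex.normSq c = t := by rw [Complex.normSq_eq_norm_sq]
    have h4 : ((1 - (t : ℂ)) * ζ l * conj (c * eta ζ i l)).re =
        (1 - t) * (c * (eta ζ i l * conj (ζ l))).re := by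
      have h5 : (1 - (t : ℂ)) * ζ l * conj (c * eta ζ i l) =
          ((1 - t : ℝ) : ℂ) * conj (c * (eta ζ i l * conj (ζ l))) := by
        push_cast
        simp only [map_mul, Complex.conj_conj]
        ring
      rw [h5, Complex.re_ofReal_mul, Complex.conj_re]
    rw [h2, h3, h4, Complex.normSq_eq_norm_sq, Complex.normSq_eq_norm_sq]
    ring
  rw [Finset.sum_congr rfl fun l _ => h1 l, Finset.sum_add_distrib, Finset.sum_add_distrib,
    ← Finset.mul_sum, ← Finset.mul_sum, ← Finset.mul_sum, h]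
  have h2 : ∑ l, (c * (eta ζ i l * conj (ζ l))).re = 0 := by
    rw [← Complex.re_sum, ← Finset.mul_sum, eta_orth hζ, mul_zero, Complex.zero_re]
  rw [h2]
  have h3 := eta_norm hζ i
  nlinarith

/-- First order expansion of a polynomial along `zl`, uniformly on the sphere. -/
theorem expansion {n : ℕ} (p : MvPolynomial (Fin n) ℂ) :
    ∃ C : ℝ, 0 ≤ C ∧ ∀ ζ ∈ Sph n, ∀ i, ‖eval ζ p‖ ≤ C ∧ ‖Dd ζ i p‖ ≤ C ∧
      ∀ c : ℂ, ‖c‖ ≤ 1 → ‖eval (zl ζ i c) p - eval ζ p - c * Dd ζ i p‖ ≤ C * ‖c‖ ^ 2 := by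
  induction p using MvPolynomial.induction_on with
  | C a =>
    refine ⟨‖a‖, norm_nonneg _, fun ζ _ i => ⟨by simp, ?_, fun c _ => ?_⟩⟩
    · simp [Dd]
    · have : Dd ζ i (C a) = 0 := by simp [Dd]
      rw [this]
      simp only [eval_C, sub_self, mul_zero, norm_zero]
      positivity
  | add p q hp hq =>
    obtain ⟨C₁, h1, hC₁⟩ := hp
    obtain ⟨C₂, h2, hC₂⟩ := hq
    refine ⟨C₁ + C₂, by positivity, fun ζ hζ i => ?_⟩
    obtain ⟨a1, b1, c1⟩ := hC₁ ζ hζ i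
    obtain ⟨a2, b2, c2⟩ := hC₂ ζ hζ i
    have hD : Dd ζ i (p + q) = Dd ζ i p + Dd ζ i q := by
      simp [Dd, mul_add, Finset.sum_add_distrib]
    refine ⟨?_, ?_, fun c hc => ?_⟩
    · rw [map_add]
      exact (norm_add_le _ _).trans (add_le_add a1 a2)
    · rw [hD]
      exact (norm_add_le _ _).trans (add_le_add b1 b2)
    · rw [hD, map_add, map_add]
      have : eval (zl ζ i c) p + eval (zl ζ i c) q - (eval ζ p + eval ζ q) -
          c * (Dd ζ i p + Dd ζ i q) =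
          (eval (zl ζ i c) p - eval ζ p - c * Dd ζ i p) +
          (eval (zl ζ i c) q - eval ζ q - c * Dd ζ i q) := by ring
      rw [this, add_mul]
      exact (norm_add_le _ _).trans (add_le_add (c1 c hc) (c2 c hc))
  | mul_X p k hp =>
    obtain ⟨K, hK0, hK⟩ := hp
    refine ⟨6 * K, by positivity, fun ζ hζ i => ?_⟩
    obtain ⟨a1, b1, c1⟩ := hK ζ hζ i
    have hζk := sph_le hζ k
    have hηk := eta_le hζ i k
    have hD : Dd ζ i (p * X k) = ζ k * Dd ζ i p + eval ζ p * eta ζ i k := by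
      have h1 : ∀ l, eta ζ i l * eval ζ (pderiv l (p * X k)) =
          ζ k * (eta ζ i l * eval ζ (pderiv l p)) +
            (if l = k then eval ζ p * eta ζ i l else 0) := by
        intro l
        rw [Derivation.leibniz, pderiv_X]
        by_cases hlk : l = k
        · subst hlk
          simp
          ring
        · have : (Pi.single l (1 : MvPolynomial (Fin n) ℂ) : Fin n → _) k = 0 :=
            Pi.single_eq_of_ne (Ne.symm hlk) _
          rw [this]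
          simp [hlk]
          ring
      rw [Dd, Finset.sum_congr rfl fun l _ => h1 l, Finset.sum_add_distrib, ← Finset.mul_sum]
      simp [Dd]
    refine ⟨?_, ?_, fun c hc => ?_⟩
    · rw [map_mul, eval_X, norm_mul]
      nlinarith [norm_nonneg (eval ζ p), norm_nonneg (ζ k)]
    · rw [hD]
      refine (norm_add_le _ _).trans ?_
      rw [norm_mul, norm_mul]
      nlinarith [norm_nonneg (eval ζ p), norm_nonneg (ζ k), norm_nonneg (Dd ζ i p),
        norm_nonneg (eta ζ i k)]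
    · have h2 := c1 c hc
      set t : ℝ := ‖c‖ ^ 2 with ht
      have ht0 : 0 ≤ t := by positivity
      have ht1 : t ≤ 1 := by
        rw [ht]
        exact pow_le_one₀ (norm_nonneg _) hc
      have hz : eval (zl ζ i c) (X k) = (1 - (t : ℂ)) * ζ k + c * eta ζ i k := by
        rw [eval_X, zl]
      rw [map_mul, map_mul, hD, hz, eval_X]
      set P := eval (zl ζ i c) p
      set P0 := eval ζ p
      set D := Dd ζ i p
      have h3 : P * ((1 - (t : ℂ)) * ζ k + c * eta ζ i k) - P0 * ζ k -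
          c * (ζ k * D + P0 * eta ζ i k) =
          (P - P0 - c * D) * ((1 - (t : ℂ)) * ζ k + c * eta ζ i k) +
          (c * c * D * eta ζ i k - (t : ℂ) * c * D * ζ k) - (t : ℂ) * P0 * ζ k := by ring
      rw [h3]
      have h4 : ‖(1 - (t : ℂ)) * ζ k + c * eta ζ i k‖ ≤ 2 := by
        refine (norm_add_le _ _).trans ?_
        rw [norm_mul, norm_mul]
        have : ‖(1 - (t : ℂ))‖ ≤ 1 := by
          have h5 : (1 - (t : ℂ)) = ((1 - t : ℝ) : ℂ) := by push_cast; rfl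
          rw [h5, Complex.norm_real, Real.norm_of_nonneg (by linarith)]
          linarith
        nlinarith [norm_nonneg (ζ k), norm_nonneg (eta ζ i k), norm_nonneg c,
          norm_nonneg (1 - (t : ℂ))]
      have h5 : ‖(P - P0 - c * D) * ((1 - (t : ℂ)) * ζ k + c * eta ζ i k)‖ ≤ K * t * 2 := by
        rw [norm_mul]
        exact mul_le_mul h2 h4 (norm_nonneg _) (by positivity)
      have hcc : ‖c‖ * ‖c‖ = t := by rw [ht]; ring
      have h6 : ‖c * c * D * eta ζ i k - (t : ℂ) * c * D * ζ k‖ ≤ 2 * (K * t) := by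
        refine (norm_sub_le _ _).trans ?_
        rw [norm_mul, norm_mul, norm_mul, norm_mul, norm_mul, norm_mul, hcc, Complex.norm_real,
          Real.norm_of_nonneg ht0]
        have h7 : t * ‖D‖ * ‖eta ζ i k‖ ≤ K * t := by
          calc t * ‖D‖ * ‖eta ζ i k‖ ≤ t * ‖D‖ * 1 :=
                mul_le_mul_of_nonneg_left hηk (by positivity)
            _ ≤ t * K * 1 := by
                rw [mul_one, mul_one]
                exact mul_le_mul_of_nonneg_left b1 ht0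
            _ = K * t := by ring
        have h8 : t * ‖c‖ * ‖D‖ * ‖ζ k‖ ≤ K * t := by
          calc t * ‖c‖ * ‖D‖ * ‖ζ k‖ ≤ t * ‖c‖ * ‖D‖ * 1 :=
                mul_le_mul_of_nonneg_left hζk (by positivity)
            _ ≤ t * 1 * ‖D‖ * 1 := by
                have : t * ‖c‖ * ‖D‖ ≤ t * 1 * ‖D‖ :=
                  mul_le_mul_of_nonneg_right (mul_le_mul_of_nonneg_left hc ht0) (norm_nonneg _)
                linarith
            _ ≤ t * 1 * K * 1 := by
                have : t * 1 * ‖D‖ ≤ t * 1 * K := mul_le_mul_of_nonneg_left b1 (by linarith)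
                linarith
            _ = K * t := by ring
        linarith
      have h7 : ‖(t : ℂ) * P0 * ζ k‖ ≤ K * t := by
        rw [norm_mul, norm_mul, Complex.norm_real, Real.norm_of_nonneg ht0]
        calc t * ‖P0‖ * ‖ζ k‖ ≤ t * ‖P0‖ * 1 := mul_le_mul_of_nonneg_left hζk (by positivity)
          _ ≤ t * K * 1 := by
            have : t * ‖P0‖ ≤ t * K := mul_le_mul_of_nonneg_left a1 ht0
            linarith
          _ = K * t := by ring
      refine (norm_sub_le _ _).trans ?_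
      refine (add_le_add (norm_add_le _ _) le_rfl).trans ?_
      have : 0 ≤ K * t := by positivity
      linarith

theorem bound_pderiv {n : ℕ} (p : MvPolynomial (Fin n) ℂ) :
    ∃ C : ℝ, 0 ≤ C ∧ ∀ ζ ∈ Sph n, ∀ l, ‖eval ζ (pderiv l p)‖ ≤ C := by
  choose C hC0 hC using fun l => expansion (pderiv l p)
  refine ⟨∑ l, C l, Finset.sum_nonneg fun l _ => hC0 l, fun ζ hζ l => ?_⟩
  exact ((hC l ζ hζ l).1).trans
    (Finset.single_le_sum (f := C) (fun i _ => hC0 i) (Finset.mem_univ l))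

theorem norm_le_one {n : ℕ} (m : Fin n → ℕ) (hm : ∀ i, 0 < m i) {d : ℕ} (hd : 1 ≤ d)
    (H : MvPolynomial (Fin n) ℂ) (hH : IsWeightedHomogeneous m H d)
    (hH1 : ∀ z ∈ Sph n, ‖eval z H‖ ≤ 1) (z : Fin n → ℂ) (hz : ∑ i, ‖z i‖ ^ 2 ≤ 1) :
    ‖eval z H‖ ≤ 1 := by
  rcases hz.lt_or_eq with h | h
  · exact (M5.norm_lt_one m hm hd H hH hH1 z h).le
  · exact hH1 z h

/-- the contact inequality holds on the closed ball -/
theorem contact_ball {n : ℕ} (m : Fin n → ℕ) (hm : ∀ i, 0 < m i) {d j : ℕ} (hj : 0 < j)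
    (hjd : j < d) (H f e : MvPolynomial (Fin n) ℂ) (hH : IsWeightedHomogeneous m H d)
    (hf : IsWeightedHomogeneous m f j) (he : IsWeightedHomogeneous m e (d - j))
    (hH1 : ∀ z ∈ Sph n, ‖eval z H‖ ≤ 1)
    (hfe : ∀ z ∈ Sph n, ‖eval z f - eval z H * conj (eval z e)‖ ≤ 2 * (1 - ‖eval z H‖ ^ 2))
    (i : Fin n) :
    ∃ K : ℝ, 0 ≤ K ∧ ∀ z : Fin n → ℂ, ∑ i, ‖z i‖ ^ 2 ≤ 1 →
      ‖eval z f - eval z H * conj (eval z e)‖ ≤ K * (1 - ‖eval z H‖ ^ 2) := by
  obtain ⟨E, hE0, hE⟩ := expansion e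
  refine ⟨2 + E, by positivity, fun z hz => ?_⟩
  rcases hz.lt_or_eq with h | h
  · by_cases hz0 : z = 0
    · have h1 : z = fun _ => 0 := hz0
      rw [h1, M5.eval_zero_eq m hj hm hf, M5.eval_zero_eq m (by omega : 1 ≤ d) hm hH]
      simp
      linarith
    · obtain ⟨r, hr0, hr1, ζ, hζ, hzζ⟩ := M5.exists_polar m hm z hz0 h
      have h5 : z = (fun i => (r : ℂ) ^ (m i) * ζ i) := funext hzζ
      rw [h5, M5.eval_scale m hH, M5.eval_scale m hf, M5.eval_scale m he]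
      have hg := hfe ζ hζ
      have hh := hH1 ζ hζ
      have hee := (hE ζ hζ i).1
      set h0 := eval ζ H
      set f0 := eval ζ f
      set e0 := eval ζ e
      have h6 : (r : ℂ) ^ j * f0 - (r : ℂ) ^ d * h0 * conj ((r : ℂ) ^ (d - j) * e0) =
          ((r ^ j : ℝ) : ℂ) * ((f0 - h0 * conj e0) +
            ((1 - r ^ (2 * (d - j)) : ℝ) : ℂ) * (h0 * conj e0)) := by
        rw [map_mul, map_pow, Complex.conj_ofReal]
        push_cast
        have h7 : (r : ℂ) ^ d = (r : ℂ) ^ j * (r : ℂ) ^ (d - j) := by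
          rw [← pow_add]
          congr 1
          omega
        rw [h7, two_mul (d - j), pow_add]
        ring
      rw [h6, norm_mul, Complex.norm_real, Real.norm_of_nonneg (by positivity)]
      have hrj : r ^ j ≤ 1 := pow_le_one₀ hr0.le hr1.le
      have hrdj : r ^ (2 * (d - j)) ≤ 1 := pow_le_one₀ hr0.le hr1.le
      have h8 : ‖(f0 - h0 * conj e0) + ((1 - r ^ (2 * (d - j)) : ℝ) : ℂ) * (h0 * conj e0)‖ ≤
          2 * (1 - ‖h0‖ ^ 2) + (1 - r ^ (2 * (d - j))) * E := by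
        refine (norm_add_le _ _).trans (add_le_add hg ?_)
        rw [norm_mul, norm_mul, Complex.norm_real, Real.norm_of_nonneg (by linarith),
          RCLike.norm_conj]
        refine mul_le_mul_of_nonneg_left ?_ (by linarith)
        calc ‖h0‖ * ‖e0‖ ≤ 1 * E := mul_le_mul hh hee (norm_nonneg _) zero_le_one
          _ = E := one_mul _
      have h9 : ‖(r : ℂ) ^ d * h0‖ = r ^ d * ‖h0‖ := by
        rw [norm_mul, norm_pow, Complex.norm_real, Real.norm_of_nonneg hr0.le]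
      rw [h9]
      have h10 : (r ^ d * ‖h0‖) ^ 2 ≤ ‖h0‖ ^ 2 := by
        have : r ^ d * ‖h0‖ ≤ 1 * ‖h0‖ :=
          mul_le_mul_of_nonneg_right (pow_le_one₀ hr0.le hr1.le) (norm_nonneg _)
        rw [one_mul] at this
        exact pow_le_pow_left₀ (by positivity) this 2
      have h11 : (r ^ d * ‖h0‖) ^ 2 ≤ r ^ (2 * (d - j)) := by
        calc (r ^ d * ‖h0‖) ^ 2 ≤ (r ^ d * 1) ^ 2 :=
              pow_le_pow_left₀ (by positivity) (mul_le_mul_of_nonneg_left hh (by positivity)) 2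
          _ = r ^ (2 * d) := by rw [mul_one, ← pow_mul, mul_comm]
          _ ≤ r ^ (2 * (d - j)) := pow_le_pow_of_le_one hr0.le hr1.le (by omega)
      have h12 : 0 ≤ ‖(f0 - h0 * conj e0) +
          ((1 - r ^ (2 * (d - j)) : ℝ) : ℂ) * (h0 * conj e0)‖ := norm_nonneg _
      calc r ^ j * ‖(f0 - h0 * conj e0) +
            ((1 - r ^ (2 * (d - j)) : ℝ) : ℂ) * (h0 * conj e0)‖
          ≤ 1 * ‖(f0 - h0 * conj e0) +
            ((1 - r ^ (2 * (d - j)) : ℝ) : ℂ) * (h0 * conj e0)‖ :=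
            mul_le_mul_of_nonneg_right hrj h12
        _ ≤ 2 * (1 - ‖h0‖ ^ 2) + (1 - r ^ (2 * (d - j))) * E := by rw [one_mul]; exact h8
        _ ≤ 2 * (1 - (r ^ d * ‖h0‖) ^ 2) + (1 - (r ^ d * ‖h0‖) ^ 2) * E := by
            have h13 : (1 - r ^ (2 * (d - j))) * E ≤ (1 - (r ^ d * ‖h0‖) ^ 2) * E :=
              mul_le_mul_of_nonneg_right (by linarith) hE0
            linarith
        _ = (2 + E) * (1 - (r ^ d * ‖h0‖) ^ 2) := by ring
  · have h1 := hfe z h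
    have h2 : 0 ≤ 1 - ‖eval z H‖ ^ 2 := by
      have := pow_le_one₀ (n := 2) (norm_nonneg _) (hH1 z h)
      linarith
    nlinarith

theorem exists_phase (h D : ℂ) {ρ : ℝ} (hρ : 0 ≤ ρ) :
    ∃ c : ℂ, ‖c‖ = ρ ∧ ‖h + c * D‖ = ‖h‖ + ρ * ‖D‖ := by
  by_cases hD : D = 0
  · refine ⟨(ρ : ℂ), by rw [Complex.norm_real, Real.norm_of_nonneg hρ], ?_⟩
    rw [hD]
    simp
  by_cases hh : h = 0
  · refine ⟨(ρ : ℂ), by rw [Complex.norm_real, Real.norm_of_nonneg hρ], ?_⟩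
    rw [hh, zero_add, norm_mul, Complex.norm_real, Real.norm_of_nonneg hρ, norm_zero, zero_add]
  have hD' : ‖D‖ ≠ 0 := norm_ne_zero_iff.2 hD
  have hh' : ‖h‖ ≠ 0 := norm_ne_zero_iff.2 hh
  have hDc : (‖D‖ : ℂ) ≠ 0 := by exact_mod_cast hD'
  have hhc : (‖h‖ : ℂ) ≠ 0 := by exact_mod_cast hh'
  refine ⟨(ρ : ℂ) * (h / ‖h‖) * (‖D‖ / D), ?_, ?_⟩
  · rw [norm_mul, norm_mul, norm_div, norm_div, Complex.norm_real, Complex.norm_real,
      Complex.norm_real, Real.norm_of_nonneg hρ, norm_norm, norm_norm, div_self hh', div_self hD']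
    ring
  · have h1 : h + (ρ : ℂ) * (h / ‖h‖) * (‖D‖ / D) * D =
        (h / ‖h‖) * ((‖h‖ + ρ * ‖D‖ : ℝ) : ℂ) := by
      push_cast
      field_simp
    rw [h1, norm_mul, norm_div, Complex.norm_real, Complex.norm_real, norm_norm, div_self hh',
      Real.norm_of_nonneg (by positivity), one_mul]

/-- the tangential derivatives are of order `√(1 - |H|²)` -/
theorem tangential {n : ℕ} (m : Fin n → ℕ) (hm : ∀ i, 0 < m i) {d j : ℕ} (hj : 0 < j)
    (hjd : j < d) (H f e : MvPolynomial (Fin n) ℂ) (hH : IsWeightedHomogeneous m H d)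
    (hf : IsWeightedHomogeneous m f j) (he : IsWeightedHomogeneous m e (d - j))
    (hH1 : ∀ z ∈ Sph n, ‖eval z H‖ ≤ 1)
    (hfe : ∀ z ∈ Sph n, ‖eval z f - eval z H * conj (eval z e)‖ ≤ 2 * (1 - ‖eval z H‖ ^ 2))
    (i₀ : Fin n) :
    ∃ K : ℝ, 0 ≤ K ∧ ∀ ζ ∈ Sph n, ∀ i : Fin n, ∀ ρ : ℝ, 0 < ρ → ρ ≤ 1 →
      1 - ‖eval ζ H‖ ^ 2 ≤ ρ ^ 2 → ‖Dd ζ i H‖ ≤ K * ρ ∧ ‖Dd ζ i f‖ ≤ K * ρ := by
  obtain ⟨K, hK0, hK⟩ := contact_ball m hm hj hjd H f e hH hf he hH1 hfe i₀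
  obtain ⟨C, hC0, hC⟩ := expansion H
  obtain ⟨F, hF0, hF⟩ := expansion f
  obtain ⟨E, hE0, hE⟩ := expansion e
  set B : ℝ := K * (3 + 4 * C) + K + F + (C * E + E + 4 * C * E) with hB
  have hB0 : 0 ≤ B := by positivity
  refine ⟨(1 + C) + (B + E * (1 + C)), by positivity, fun ζ hζ i ρ hρ hρ1 hg => ?_⟩
  have hh1 := hH1 ζ hζ
  have hρ2 : 0 < ρ ^ 2 := by positivity
  -- bound of the derivative of `H`
  have hD : ‖Dd ζ i H‖ ≤ (1 + C) * ρ := by
    obtain ⟨c, hc, hc2⟩ := exists_phase (eval ζ H) (Dd ζ i H) hρ.le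
    have h1 := (hC ζ hζ i).2.2 c (by rw [hc]; exact hρ1)
    have h2 := norm_le_one m hm (by omega : 1 ≤ d) H hH hH1 _
      (zl_mem hζ i (by rw [hc]; exact hρ1 : ‖c‖ ≤ 1))
    have h3 : eval ζ H + c * Dd ζ i H = eval (zl ζ i c) H -
        (eval (zl ζ i c) H - eval ζ H - c * Dd ζ i H) := by ring
    have h4 : ‖eval ζ H‖ + ρ * ‖Dd ζ i H‖ ≤ 1 + C * ρ ^ 2 := by
      rw [← hc2, h3, ← hc]
      exact (norm_sub_le _ _).trans (add_le_add h2 h1)
    have h5 : 1 - ‖eval ζ H‖ ≤ ρ ^ 2 := by nlinarith [norm_nonneg (eval ζ H)]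
    have h6 : ρ * ‖Dd ζ i H‖ ≤ ρ * ((1 + C) * ρ) := by nlinarith
    exact le_of_mul_le_mul_left h6 hρ
  -- the defect near `ζ`
  have hdef : ∀ c : ℂ, ‖c‖ = ρ → 1 - ‖eval (zl ζ i c) H‖ ^ 2 ≤ (3 + 4 * C) * ρ ^ 2 := by
    intro c hc
    have h1 := (hC ζ hζ i).2.2 c (by rw [hc]; exact hρ1)
    have h2 := norm_le_one m hm (by omega : 1 ≤ d) H hH hH1 _
      (zl_mem hζ i (by rw [hc]; exact hρ1 : ‖c‖ ≤ 1))
    rw [hc] at h1
    have h3 : ‖eval ζ H‖ ≤ ‖eval (zl ζ i c) H‖ + ρ * ‖Dd ζ i H‖ + C * ρ ^ 2 := by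
      have h4 : eval ζ H = eval (zl ζ i c) H - c * Dd ζ i H -
        (eval (zl ζ i c) H - eval ζ H - c * Dd ζ i H) := by ring
      calc ‖eval ζ H‖ = ‖eval (zl ζ i c) H - c * Dd ζ i H -
            (eval (zl ζ i c) H - eval ζ H - c * Dd ζ i H)‖ := by rw [← h4]
        _ ≤ ‖eval (zl ζ i c) H - c * Dd ζ i H‖ +
            ‖eval (zl ζ i c) H - eval ζ H - c * Dd ζ i H‖ := norm_sub_le _ _
        _ ≤ (‖eval (zl ζ i c) H‖ + ‖c * Dd ζ i H‖) + C * ρ ^ 2 :=
            add_le_add (norm_sub_le _ _) h1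
        _ = _ := by rw [norm_mul, hc]
    have h5 : ρ * ‖Dd ζ i H‖ ≤ (1 + C) * ρ ^ 2 := by nlinarith
    have h6 : ‖eval ζ H‖ - ‖eval (zl ζ i c) H‖ ≤ (1 + 2 * C) * ρ ^ 2 := by nlinarith
    have h7 : ‖eval ζ H‖ ^ 2 - ‖eval (zl ζ i c) H‖ ^ 2 ≤ 2 * ((1 + 2 * C) * ρ ^ 2) := by
      have h8 : 0 ≤ (1 + 2 * C) * ρ ^ 2 := by positivity
      nlinarith [norm_nonneg (eval ζ H), norm_nonneg (eval (zl ζ i c) H)]
    nlinarith
  refine ⟨hD.trans (by nlinarith [mul_nonneg hB0 hρ.le, mul_nonneg (mul_nonneg hE0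
    (by positivity : (0 : ℝ) ≤ 1 + C)) hρ.le]), ?_⟩
  -- the combination
  set A : ℂ := Dd ζ i f - conj (eval ζ e) * Dd ζ i H with hA
  set A' : ℂ := - (eval ζ H * conj (Dd ζ i e)) with hA'
  have hcomb : ∀ c : ℂ, ‖c‖ = ρ → ‖c * A + conj c * A'‖ ≤ B * ρ ^ 2 := by
    intro c hc
    have hc1 : ‖c‖ ≤ 1 := by rw [hc]; exact hρ1
    obtain ⟨a1, b1, c1⟩ := hC ζ hζ i
    obtain ⟨a2, b2, c2⟩ := hF ζ hζ i
    obtain ⟨a3, b3, c3⟩ := hE ζ hζ i
    have e1 := c1 c hc1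
    have e2 := c2 c hc1
    have e3 := c3 c hc1
    rw [hc] at e1 e2 e3
    have h1 := hK _ (zl_mem hζ i hc1)
    have h2 := hK ζ (le_of_eq hζ)
    have h3 := hdef c hc
    set H' := eval (zl ζ i c) H
    set H0 := eval ζ H
    set f' := eval (zl ζ i c) f
    set f0 := eval ζ f
    set e' := eval (zl ζ i c) e
    set e0 := eval ζ e
    set DH := Dd ζ i H
    set Df := Dd ζ i f
    set De := Dd ζ i e
    have h4 : c * A + conj c * A' = (f' - H' * conj e') - (f0 - H0 * conj e0) -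
        (f' - f0 - c * Df) + ((H' - H0 - c * DH) * conj e0 + H0 * conj (e' - e0 - c * De) +
          (H' - H0) * conj (e' - e0)) := by
      rw [hA, hA']
      simp only [map_sub, map_mul]
      ring
    have hH' : ‖H' - H0‖ ≤ 2 * C * ρ := by
      have : H' - H0 = (H' - H0 - c * DH) + c * DH := by ring
      rw [this]
      refine (norm_add_le _ _).trans ?_
      rw [norm_mul, hc]
      have u1 : C * ρ ^ 2 ≤ C * ρ := mul_le_mul_of_nonneg_left (by nlinarith) (by positivity)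
      have u2 : ρ * ‖DH‖ ≤ ρ * C := mul_le_mul_of_nonneg_left b1 (by positivity)
      linarith [mul_comm ρ C]
    have he' : ‖e' - e0‖ ≤ 2 * E * ρ := by
      have : e' - e0 = (e' - e0 - c * De) + c * De := by ring
      rw [this]
      refine (norm_add_le _ _).trans ?_
      rw [norm_mul, hc]
      have u1 : E * ρ ^ 2 ≤ E * ρ := mul_le_mul_of_nonneg_left (by nlinarith) (by positivity)
      have u2 : ρ * ‖De‖ ≤ ρ * E := mul_le_mul_of_nonneg_left b3 (by positivity)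
      linarith [mul_comm ρ E]
    have t1 : ‖f' - H' * conj e'‖ ≤ K * ((3 + 4 * C) * ρ ^ 2) :=
      h1.trans (mul_le_mul_of_nonneg_left h3 hK0)
    have t2 : ‖f0 - H0 * conj e0‖ ≤ K * ρ ^ 2 := h2.trans (mul_le_mul_of_nonneg_left hg hK0)
    have t3 : ‖(H' - H0 - c * DH) * conj e0‖ ≤ C * E * ρ ^ 2 := by
      rw [norm_mul, RCLike.norm_conj]
      calc ‖H' - H0 - c * DH‖ * ‖e0‖ ≤ (C * ρ ^ 2) * E :=
            mul_le_mul e1 a3 (norm_nonneg _) (by positivity)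
        _ = _ := by ring
    have t4 : ‖H0 * conj (e' - e0 - c * De)‖ ≤ E * ρ ^ 2 := by
      rw [norm_mul, RCLike.norm_conj]
      calc ‖H0‖ * ‖e' - e0 - c * De‖ ≤ 1 * (E * ρ ^ 2) :=
            mul_le_mul hh1 e3 (norm_nonneg _) zero_le_one
        _ = _ := one_mul _
    have t5 : ‖(H' - H0) * conj (e' - e0)‖ ≤ 4 * C * E * ρ ^ 2 := by
      rw [norm_mul, RCLike.norm_conj]
      calc ‖H' - H0‖ * ‖e' - e0‖ ≤ (2 * C * ρ) * (2 * E * ρ) :=
            mul_le_mul hH' he' (norm_nonneg _) (by positivity)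
        _ = _ := by ring
    rw [h4]
    calc ‖(f' - H' * conj e') - (f0 - H0 * conj e0) - (f' - f0 - c * Df) +
          ((H' - H0 - c * DH) * conj e0 + H0 * conj (e' - e0 - c * De) +
          (H' - H0) * conj (e' - e0))‖
        ≤ ‖(f' - H' * conj e') - (f0 - H0 * conj e0) - (f' - f0 - c * Df)‖ +
          ‖(H' - H0 - c * DH) * conj e0 + H0 * conj (e' - e0 - c * De) +
          (H' - H0) * conj (e' - e0)‖ := norm_add_le _ _
      _ ≤ (‖(f' - H' * conj e') - (f0 - H0 * conj e0)‖ + ‖f' - f0 - c * Df‖) +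
          (‖(H' - H0 - c * DH) * conj e0 + H0 * conj (e' - e0 - c * De)‖ +
          ‖(H' - H0) * conj (e' - e0)‖) := add_le_add (norm_sub_le _ _) (norm_add_le _ _)
      _ ≤ ((‖f' - H' * conj e'‖ + ‖f0 - H0 * conj e0‖) + ‖f' - f0 - c * Df‖) +
          ((‖(H' - H0 - c * DH) * conj e0‖ + ‖H0 * conj (e' - e0 - c * De)‖) +
          ‖(H' - H0) * conj (e' - e0)‖) :=
          add_le_add (add_le_add (norm_sub_le _ _) le_rfl) (add_le_add (norm_add_le _ _) le_rfl)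
      _ ≤ ((K * ((3 + 4 * C) * ρ ^ 2) + K * ρ ^ 2) + F * ρ ^ 2) +
          ((C * E * ρ ^ 2 + E * ρ ^ 2) + 4 * C * E * ρ ^ 2) := by linarith
      _ = B * ρ ^ 2 := by rw [hB]; ring
  have hA1 : ‖A‖ ≤ B * ρ := by
    have h1 := hcomb (ρ : ℂ) (by rw [Complex.norm_real, Real.norm_of_nonneg hρ.le])
    have h2 := hcomb (Complex.I * ρ) (by
      rw [norm_mul, Complex.norm_I, one_mul, Complex.norm_real, Real.norm_of_nonneg hρ.le])
    have h3 : (ρ : ℂ) * A + conj (ρ : ℂ) * A' = (ρ : ℂ) * (A + A') := by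
      rw [Complex.conj_ofReal]; ring
    have h4 : Complex.I * ρ * A + conj (Complex.I * ρ) * A' = Complex.I * ((ρ : ℂ) * (A - A')) := by
      rw [map_mul, Complex.conj_I, Complex.conj_ofReal]; ring
    rw [h3, norm_mul, Complex.norm_real, Real.norm_of_nonneg hρ.le] at h1
    rw [h4, norm_mul, norm_mul, Complex.norm_I, one_mul, Complex.norm_real,
      Real.norm_of_nonneg hρ.le] at h2
    have h5 : ‖A + A'‖ ≤ B * ρ := by
      have : ρ * ‖A + A'‖ ≤ ρ * (B * ρ) := by nlinarith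
      exact le_of_mul_le_mul_left this hρ
    have h6 : ‖A - A'‖ ≤ B * ρ := by
      have : ρ * ‖A - A'‖ ≤ ρ * (B * ρ) := by nlinarith
      exact le_of_mul_le_mul_left this hρ
    have h7 : (2 : ℂ) * A = (A + A') + (A - A') := by ring
    have h8 : 2 * ‖A‖ ≤ B * ρ + B * ρ := by
      calc 2 * ‖A‖ = ‖(2 : ℂ) * A‖ := by rw [norm_mul]; norm_num
        _ = ‖(A + A') + (A - A')‖ := by rw [h7]
        _ ≤ _ := (norm_add_le _ _).trans (add_le_add h5 h6)
    linarith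
  have h1 : Dd ζ i f = A + conj (eval ζ e) * Dd ζ i H := by rw [hA]; ring
  have h2 : ‖Dd ζ i f‖ ≤ B * ρ + E * ((1 + C) * ρ) := by
    rw [h1]
    refine (norm_add_le _ _).trans (add_le_add hA1 ?_)
    rw [norm_mul, RCLike.norm_conj]
    exact mul_le_mul (hE ζ hζ i).1 hD (norm_nonneg _) hE0
  refine h2.trans ?_
  have h3 : 0 ≤ (1 + C) * ρ := by positivity
  nlinarith

theorem Dd_eq {n : ℕ} (ζ : Fin n → ℂ) (i : Fin n) (p : MvPolynomial (Fin n) ℂ) :
    Dd ζ i p = eval ζ (pderiv i p) - conj (ζ i) * ∑ l, ζ l * eval ζ (pderiv l p) := by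
  simp only [Dd, eta, sub_mul, Finset.sum_sub_distrib, ite_mul, one_mul, zero_mul,
    Finset.sum_ite_eq', Finset.mem_univ, if_true, Finset.mul_sum, mul_assoc]

theorem euler {n : ℕ} (m : Fin n → ℕ) {d : ℕ} {p : MvPolynomial (Fin n) ℂ}
    (hp : IsWeightedHomogeneous m p d) (ζ : Fin n → ℂ) :
    (d : ℂ) * eval ζ p = ∑ l, (m l : ℂ) * (ζ l * eval ζ (pderiv l p)) := by
  have h := congrArg (eval ζ) hp.sum_weight_X_mul_pderiv
  rw [map_sum, nsmul_eq_mul, map_mul, map_natCast] at h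
  rw [← h]
  refine Finset.sum_congr rfl fun l _ => ?_
  rw [nsmul_eq_mul, map_mul, map_natCast, map_mul, eval_X]

end M2

open M2

/-- M2 -/
theorem wronskian_of_contact {n : ℕ} (m : Fin n → ℕ) (hm : ∀ i, 0 < m i) {d j : ℕ} (hj : 0 < j)
    (hjd : j < d)
    (H f e : MvPolynomial (Fin n) ℂ) (hH : IsWeightedHomogeneous m H d) (hf : IsWeightedHomogeneous m f j)
    (he : IsWeightedHomogeneous m e (d - j))
    (hH1 : ∀ z ∈ Sph n, ‖eval z H‖ ≤ 1)
    (hfe : ∀ z ∈ Sph n, ‖eval z f - eval z H * (starRingEnd ℂ) (eval z e)‖ ≤ 2 * (1 - ‖eval z H‖ ^ 2))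
    (hii : NoDom H) (i : Fin n) :
    (d : MvPolynomial (Fin n) ℂ) * H * pderiv i f = (j : MvPolynomial (Fin n) ℂ) * f * pderiv i H := by
  obtain ⟨K, hK0, hK⟩ := tangential m hm hj hjd H f e hH hf he hH1 hfe i
  obtain ⟨CH, hCH0, hCH⟩ := bound_pderiv H
  obtain ⟨CF, hCF0, hCF⟩ := bound_pderiv f
  obtain ⟨F, hF0, hF⟩ := expansion f
  set w : MvPolynomial (Fin n) ℂ := (d : MvPolynomial (Fin n) ℂ) * H * pderiv i f -
    (j : MvPolynomial (Fin n) ℂ) * f * pderiv i H with hw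
  set S : ℝ := ∑ l, (m l : ℝ) with hS
  have hS0 : 0 ≤ S := Finset.sum_nonneg fun l _ => Nat.cast_nonneg _
  set L : ℝ := (d * K + j * F * K) + (S * K * (n * CF) + S * K * (n * CH)) with hL
  have hL0 : 0 ≤ L := by positivity
  have key : ∀ ζ ∈ Sph n, ∀ ρ : ℝ, 0 < ρ → ρ ≤ 1 → 1 - ‖eval ζ H‖ ^ 2 ≤ ρ ^ 2 →
      ‖eval ζ w‖ ≤ L * ρ := by
    intro ζ hζ ρ hρ hρ1 hg
    set RH : ℂ := ∑ l, ζ l * eval ζ (pderiv l H) with hRH
    set RF : ℂ := ∑ l, ζ l * eval ζ (pderiv l f) with hRF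
    set SH : ℂ := ∑ l, (m l : ℂ) * (ζ l * Dd ζ l H) with hSH
    set SF : ℂ := ∑ l, (m l : ℂ) * (ζ l * Dd ζ l f) with hSF
    set M : ℂ := ∑ l, (m l : ℂ) * (ζ l * conj (ζ l)) with hM
    have eH : (d : ℂ) * eval ζ H = SH + M * RH := by
      rw [euler m hH, hSH, hM, Finset.sum_mul, ← Finset.sum_add_distrib]
      refine Finset.sum_congr rfl fun l _ => ?_
      rw [Dd_eq]
      ring
    have eF : (j : ℂ) * eval ζ f = SF + M * RF := by
      rw [euler m hf, hSF, hM, Finset.sum_mul, ← Finset.sum_add_distrib]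
      refine Finset.sum_congr rfl fun l _ => ?_
      rw [Dd_eq]
      ring
    have e1 : eval ζ (pderiv i f) = Dd ζ i f + conj (ζ i) * RF := by rw [Dd_eq]; ring
    have e2 : eval ζ (pderiv i H) = Dd ζ i H + conj (ζ i) * RH := by rw [Dd_eq]; ring
    have e3 : eval ζ w = ((d : ℂ) * eval ζ H) * Dd ζ i f - ((j : ℂ) * eval ζ f) * Dd ζ i H +
        conj (ζ i) * (SH * RF - SF * RH) := by
      have : eval ζ w = ((d : ℂ) * eval ζ H) * eval ζ (pderiv i f) -
          ((j : ℂ) * eval ζ f) * eval ζ (pderiv i H) := by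
        rw [hw]
        simp only [map_sub, map_mul, map_natCast]
      rw [this, e1, e2]
      have h1 : ((d : ℂ) * eval ζ H) * (conj (ζ i) * RF) -
          ((j : ℂ) * eval ζ f) * (conj (ζ i) * RH) = conj (ζ i) * (SH * RF - SF * RH) := by
        rw [eH, eF]
        ring
      linear_combination h1
    have bRH : ‖RH‖ ≤ n * CH := by
      rw [hRH]
      refine (norm_sum_le _ _).trans ?_
      calc ∑ l, ‖ζ l * eval ζ (pderiv l H)‖ ≤ ∑ _l : Fin n, CH := Finset.sum_le_sum fun l _ => by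
            rw [norm_mul]
            calc ‖ζ l‖ * ‖eval ζ (pderiv l H)‖ ≤ 1 * CH :=
                  mul_le_mul (sph_le hζ l) (hCH ζ hζ l) (norm_nonneg _) zero_le_one
              _ = CH := one_mul _
        _ = n * CH := by simp
    have bRF : ‖RF‖ ≤ n * CF := by
      rw [hRF]
      refine (norm_sum_le _ _).trans ?_
      calc ∑ l, ‖ζ l * eval ζ (pderiv l f)‖ ≤ ∑ _l : Fin n, CF := Finset.sum_le_sum fun l _ => by
            rw [norm_mul]
            calc ‖ζ l‖ * ‖eval ζ (pderiv l f)‖ ≤ 1 * CF :=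
                  mul_le_mul (sph_le hζ l) (hCF ζ hζ l) (norm_nonneg _) zero_le_one
              _ = CF := one_mul _
        _ = n * CF := by simp
    have bSH : ‖SH‖ ≤ S * (K * ρ) := by
      rw [hSH, hS, Finset.sum_mul]
      refine (norm_sum_le _ _).trans (Finset.sum_le_sum fun l _ => ?_)
      rw [norm_mul, norm_mul, Complex.norm_natCast]
      refine mul_le_mul_of_nonneg_left ?_ (Nat.cast_nonneg _)
      calc ‖ζ l‖ * ‖Dd ζ l H‖ ≤ 1 * (K * ρ) :=
            mul_le_mul (sph_le hζ l) (hK ζ hζ l ρ hρ hρ1 hg).1 (norm_nonneg _) zero_le_one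
        _ = K * ρ := one_mul _
    have bSF : ‖SF‖ ≤ S * (K * ρ) := by
      rw [hSF, hS, Finset.sum_mul]
      refine (norm_sum_le _ _).trans (Finset.sum_le_sum fun l _ => ?_)
      rw [norm_mul, norm_mul, Complex.norm_natCast]
      refine mul_le_mul_of_nonneg_left ?_ (Nat.cast_nonneg _)
      calc ‖ζ l‖ * ‖Dd ζ l f‖ ≤ 1 * (K * ρ) :=
            mul_le_mul (sph_le hζ l) (hK ζ hζ l ρ hρ hρ1 hg).2 (norm_nonneg _) zero_le_one
        _ = K * ρ := one_mul _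
    obtain ⟨kH, kF⟩ := hK ζ hζ i ρ hρ hρ1 hg
    have t1 : ‖((d : ℂ) * eval ζ H) * Dd ζ i f‖ ≤ d * K * ρ := by
      rw [norm_mul, norm_mul, Complex.norm_natCast]
      calc (d : ℝ) * ‖eval ζ H‖ * ‖Dd ζ i f‖ ≤ (d * 1) * (K * ρ) :=
            mul_le_mul (mul_le_mul_of_nonneg_left (hH1 ζ hζ) (Nat.cast_nonneg _)) kF
              (norm_nonneg _) (by positivity)
        _ = _ := by ring
    have t2 : ‖((j : ℂ) * eval ζ f) * Dd ζ i H‖ ≤ j * F * K * ρ := by
      rw [norm_mul, norm_mul, Complex.norm_natCast]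
      calc (j : ℝ) * ‖eval ζ f‖ * ‖Dd ζ i H‖ ≤ (j * F) * (K * ρ) :=
            mul_le_mul (mul_le_mul_of_nonneg_left (hF ζ hζ i).1 (Nat.cast_nonneg _)) kH
              (norm_nonneg _) (by positivity)
        _ = _ := by ring
    have t3 : ‖conj (ζ i) * (SH * RF - SF * RH)‖ ≤
        S * (K * ρ) * (n * CF) + S * (K * ρ) * (n * CH) := by
      rw [norm_mul, RCLike.norm_conj]
      calc ‖ζ i‖ * ‖SH * RF - SF * RH‖ ≤ 1 * ‖SH * RF - SF * RH‖ :=
            mul_le_mul_of_nonneg_right (sph_le hζ i) (norm_nonneg _)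
        _ ≤ ‖SH * RF‖ + ‖SF * RH‖ := by rw [one_mul]; exact norm_sub_le _ _
        _ ≤ _ := by
            rw [norm_mul, norm_mul]
            exact add_le_add (mul_le_mul bSH bRF (norm_nonneg _) (by positivity))
              (mul_le_mul bSF bRH (norm_nonneg _) (by positivity))
    rw [e3]
    calc ‖((d : ℂ) * eval ζ H) * Dd ζ i f - ((j : ℂ) * eval ζ f) * Dd ζ i H +
        conj (ζ i) * (SH * RF - SF * RH)‖
        ≤ (‖((d : ℂ) * eval ζ H) * Dd ζ i f‖ + ‖((j : ℂ) * eval ζ f) * Dd ζ i H‖) +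
          ‖conj (ζ i) * (SH * RF - SF * RH)‖ :=
          (norm_add_le _ _).trans (add_le_add (norm_sub_le _ _) le_rfl)
      _ ≤ (d * K * ρ + j * F * K * ρ) + (S * (K * ρ) * (n * CF) + S * (K * ρ) * (n * CH)) :=
          add_le_add (add_le_add t1 t2) t3
      _ = L * ρ := by rw [hL]; ring
  -- the square is dominated
  have hdom : ∀ ζ ∈ Sph n, ‖eval ζ w‖ ^ 2 ≤ L ^ 2 * (1 - ‖eval ζ H‖ ^ 2) := by
    intro ζ hζ
    set g : ℝ := 1 - ‖eval ζ H‖ ^ 2 with hg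
    have hg0 : 0 ≤ g := by
      have := pow_le_one₀ (n := 2) (norm_nonneg _) (hH1 ζ hζ)
      linarith
    have hg1 : g ≤ 1 := by
      have : 0 ≤ ‖eval ζ H‖ ^ 2 := by positivity
      linarith
    rcases hg0.lt_or_eq with h | h
    · have h1 := key ζ hζ (Real.sqrt g) (Real.sqrt_pos.2 h) (Real.sqrt_le_one.2 hg1)
        (le_of_eq (Real.sq_sqrt hg0).symm)
      calc ‖eval ζ w‖ ^ 2 ≤ (L * Real.sqrt g) ^ 2 := pow_le_pow_left₀ (norm_nonneg _) h1 2
        _ = L ^ 2 * g := by rw [mul_pow, Real.sq_sqrt hg0]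
    · have hw0 : ‖eval ζ w‖ = 0 := by
        by_contra hne
        have hpos : 0 < ‖eval ζ w‖ := lt_of_le_of_ne (norm_nonneg _) (Ne.symm hne)
        set ρ : ℝ := min 1 (‖eval ζ w‖ / (2 * (L + 1))) with hρ
        have hρ0 : 0 < ρ := lt_min one_pos (by positivity)
        have h1 := key ζ hζ ρ hρ0 (min_le_left _ _) (by rw [← hg, ← h]; positivity)
        have h2 : ρ ≤ ‖eval ζ w‖ / (2 * (L + 1)) := min_le_right _ _
        rw [le_div_iff₀ (by positivity)] at h2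
        nlinarith
      rw [hw0, ← h]
      simp
  have hpw := hii (C ((1 / (L ^ 2 + 1) : ℝ) : ℂ) * w ^ 2) (by
    intro ζ hζ
    have h1 := hdom ζ hζ
    have h2 : 0 ≤ 1 - ‖eval ζ H‖ ^ 2 := by
      have := pow_le_one₀ (n := 2) (norm_nonneg _) (hH1 ζ hζ)
      linarith
    rw [map_mul, eval_C, map_pow, norm_mul, norm_pow, Complex.norm_real,
      Real.norm_of_nonneg (by positivity), one_div, inv_mul_le_iff₀ (by positivity)]
    nlinarith)
  rcases mul_eq_zero.1 hpw with h | h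
  · exfalso
    rw [C_eq_zero] at h
    have h1 : (1 / (L ^ 2 + 1) : ℝ) = 0 := by exact_mod_cast h
    have h2 : 0 < (1 / (L ^ 2 + 1) : ℝ) := by positivity
    linarith
  · have h1 : w = 0 := pow_eq_zero_iff two_ne_zero |>.1 h
    exact sub_eq_zero.1 h1

end

end Pool.Agent.Lib.MP_6ff8d9_an.Hom
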