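import Pool.Agent.Lib.MP_6ff8d9_an.HDefs

/-!
# The Cayley transform of a weighted homogeneous polynomial: the easy direction
-/

open Metric Filter Topology MvPolynomial

namespace Pool.Agent.Lib.MP_6ff8d9_an.Hom

noncomputable section

namespace M5

/-- scaling of a weighted homogeneous polynomial -/
theorem eval_scale {n : ℕ} (m : Fin n → ℕ) {d : ℕ} {H : MvPolynomial (Fin n) ℂ}
    (hH : IsWeightedHomogeneous m H d) (c : ℂ) (ζ : Fin n → ℂ) :
    eval (fun i => c ^ (m i) * ζ i) H = c ^ d * eval ζ H := by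
  rw [eval_eq', eval_eq', Finset.mul_sum]
  refine Finset.sum_congr rfl fun γ hγ => ?_
  have hw : Finsupp.weight m γ = d := hH (mem_support_iff.1 hγ)
  have h1 : ∏ i, (c ^ (m i) * ζ i) ^ γ i = c ^ d * ∏ i, ζ i ^ γ i := by
    simp only [mul_pow, Finset.prod_mul_distrib]
    congr 1
    rw [← hw, Finsupp.weight_apply, Finsupp.sum_fintype _ _ (by simp)]
    rw [← Finset.prod_pow_eq_pow_sum]
    refine Finset.prod_congr rfl fun i _ => ?_
    rw [← pow_mul, smul_eq_mul, mul_comm]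
  rw [h1]
  ring

theorem eval_zero_eq {n : ℕ} (m : Fin n → ℕ) {d : ℕ} (hd : 1 ≤ d) (hm : ∀ i, 0 < m i)
    {H : MvPolynomial (Fin n) ℂ} (hH : IsWeightedHomogeneous m H d) :
    eval (fun _ : Fin n => (0 : ℂ)) H = 0 := by
  have h := eval_scale m hH 0 (fun _ => 0)
  rw [zero_pow (by omega), zero_mul] at h
  have h1 : (fun i : Fin n => (0 : ℂ) ^ (m i) * (0 : ℂ)) = fun _ => 0 := by
    funext i
    exact mul_zero _
  rwa [h1] at h

theorem mem_ball_iff {n : ℕ} (z : Cn n) : z ∈ ball (0 : Cn n) 1 ↔ ∑ i, ‖z i‖ ^ 2 < 1 := by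
  rw [mem_ball_zero_iff, EuclideanSpace.norm_eq, Real.sqrt_lt' one_pos, one_pow]

/-- weighted polar coordinates -/
theorem exists_polar {n : ℕ} (m : Fin n → ℕ) (hm : ∀ i, 0 < m i) (z : Fin n → ℂ) (hz : z ≠ 0)
    (hz1 : ∑ i, ‖z i‖ ^ 2 < 1) :
    ∃ r : ℝ, 0 < r ∧ r < 1 ∧ ∃ ζ ∈ Sph n, ∀ i, z i = (r : ℂ) ^ (m i) * ζ i := by
  obtain ⟨i₀, hi₀⟩ : ∃ i, z i ≠ 0 := by
    by_contra h
    push Not at h
    exact hz (funext h)
  have hpos : 0 < ‖z i₀‖ := norm_pos_iff.2 hi₀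
  let φ : ℝ → ℝ := fun s => ∑ i, ‖z i‖ ^ 2 * s ^ (2 * m i)
  have hφc : Continuous φ := by fun_prop
  have hφ1 : φ 1 < 1 := by simpa [φ] using hz1
  set S : ℝ := max 1 (1 / ‖z i₀‖) with hS
  have hS1 : 1 ≤ S := le_max_left _ _
  have hφS : 1 ≤ φ S := by
    have h1 : ‖z i₀‖ ^ 2 * S ^ (2 * m i₀) ≤ φ S :=
      Finset.single_le_sum (f := fun i => ‖z i‖ ^ 2 * S ^ (2 * m i))
        (fun i _ => by positivity) (Finset.mem_univ i₀)
    refine le_trans ?_ h1
    have h2 : S ^ 2 ≤ S ^ (2 * m i₀) := pow_le_pow_right₀ hS1 (by have := hm i₀; omega)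
    have h3 : 1 ≤ ‖z i₀‖ * S := by
      have : 1 / ‖z i₀‖ ≤ S := le_max_right _ _
      calc (1 : ℝ) = ‖z i₀‖ * (1 / ‖z i₀‖) := by field_simp
        _ ≤ ‖z i₀‖ * S := mul_le_mul_of_nonneg_left this hpos.le
    calc (1 : ℝ) ≤ (‖z i₀‖ * S) ^ 2 := one_le_pow₀ h3
      _ = ‖z i₀‖ ^ 2 * S ^ 2 := by ring
      _ ≤ _ := mul_le_mul_of_nonneg_left h2 (by positivity)
  obtain ⟨s, ⟨hs1, _⟩, hs⟩ := intermediate_value_Icc hS1 hφc.continuousOn ⟨hφ1.le, hφS⟩
  have hs1' : 1 < s := by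
    rcases hs1.lt_or_eq with h | h
    · exact h
    · rw [← h] at hs
      linarith
  have hs0 : 0 < s := by linarith
  refine ⟨s⁻¹, inv_pos.2 hs0, inv_lt_one_of_one_lt₀ hs1', fun i => (s : ℂ) ^ (m i) * z i, ?_, ?_⟩
  · show ∑ i, ‖(s : ℂ) ^ (m i) * z i‖ ^ 2 = 1
    rw [← hs]
    refine Finset.sum_congr rfl fun i _ => ?_
    rw [norm_mul, norm_pow, Complex.norm_real, Real.norm_of_nonneg hs0.le]
    ring
  · intro i
    have : (s : ℂ) ≠ 0 := by exact_mod_cast hs0.ne'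
    push_cast
    rw [← mul_assoc, ← mul_pow, inv_mul_cancel₀ this, one_pow, one_mul]

theorem exists_sph {n : ℕ} (hn : 1 ≤ n) : ∃ ζ, ζ ∈ Sph n := by
  classical
  refine ⟨Pi.single ⟨0, hn⟩ 1, ?_⟩
  show ∑ i, ‖(Pi.single (⟨0, hn⟩ : Fin n) (1 : ℂ) : Fin n → ℂ) i‖ ^ 2 = 1
  rw [Finset.sum_eq_single (⟨0, hn⟩ : Fin n)]
  · simp
  · intro i _ hi
    simp [Pi.single_eq_of_ne hi]
  · intro h
    exact absurd (Finset.mem_univ _) h

theorem circle_mem_sph {n : ℕ} (m : Fin n → ℕ) {c : ℂ} (hc : ‖c‖ = 1) {ζ : Fin n → ℂ}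
    (hζ : ζ ∈ Sph n) : (fun i => c ^ (m i) * ζ i) ∈ Sph n := by
  show ∑ i, ‖c ^ (m i) * ζ i‖ ^ 2 = 1
  have h : ∑ i, ‖ζ i‖ ^ 2 = 1 := hζ
  rw [← h]
  refine Finset.sum_congr rfl fun i _ => ?_
  rw [norm_mul, norm_pow, hc, one_pow, one_mul]

theorem differentiable_slice {n : ℕ} (m : Fin n → ℕ) (ζ : Fin n → ℂ)
    (p : MvPolynomial (Fin n) ℂ) :
    Differentiable ℂ fun c : ℂ => eval (fun i => c ^ (m i) * ζ i) p := by
  induction p using MvPolynomial.induction_on with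
  | C a => simp
  | add p q hp hq =>
    simp only [map_add]
    exact hp.add hq
  | mul_X p i hp =>
    simp only [map_mul, eval_X]
    exact hp.mul (by fun_prop)

theorem differentiable_eval {n : ℕ} (p : MvPolynomial (Fin n) ℂ) :
    Differentiable ℂ fun z : Cn n => eval (fun i => z i) p := by
  induction p using MvPolynomial.induction_on with
  | C a => simp
  | add p q hp hq =>
    simp only [map_add]
    exact hp.add hq
  | mul_X p i hp =>
    simp only [map_mul, eval_X]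
    exact hp.mul (EuclideanSpace.proj (𝕜 := ℂ) i).differentiable

/-- A polynomial that is dominated by `1 - |H|²` on the sphere is dominated in the ball. -/
theorem dom_ball {n : ℕ} (hn : 1 ≤ n) (m : Fin n → ℕ) (hm : ∀ i, 0 < m i) {d : ℕ}
    (H : MvPolynomial (Fin n) ℂ) (hH : IsWeightedHomogeneous m H d)
    (p : MvPolynomial (Fin n) ℂ) (hp : ∀ z ∈ Sph n, ‖eval z p‖ ≤ 1 - ‖eval z H‖ ^ 2)
    (z : Fin n → ℂ) (hz : ∑ i, ‖z i‖ ^ 2 < 1) : ‖eval z p‖ ≤ 1 - ‖eval z H‖ ^ 2 := by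
  -- first the points of a slice
  have key : ∀ ζ ∈ Sph n, ∀ r : ℝ, 0 ≤ r → r < 1 →
      ‖eval (fun i => (r : ℂ) ^ (m i) * ζ i) p‖ ≤
        1 - ‖eval (fun i => (r : ℂ) ^ (m i) * ζ i) H‖ ^ 2 := by
    intro ζ hζ r hr0 hr1
    have h1 : ‖eval (fun i => (r : ℂ) ^ (m i) * ζ i) p‖ ≤ 1 - ‖eval ζ H‖ ^ 2 := by
      refine Complex.norm_le_of_forall_mem_frontier_norm_le (U := ball (0 : ℂ) 1)
        (f := fun c : ℂ => eval (fun i => c ^ (m i) * ζ i) p) isBounded_ball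
        (differentiable_slice m ζ p).diffContOnCl ?_ ?_
      · intro c hc
        rw [frontier_ball (0 : ℂ) one_ne_zero, mem_sphere_zero_iff_norm] at hc
        have h2 := hp _ (circle_mem_sph m hc hζ)
        rw [eval_scale m hH, norm_mul, norm_pow, hc, one_pow, one_mul] at h2
        exact h2
      · refine subset_closure ?_
        rw [mem_ball_zero_iff, Complex.norm_real, Real.norm_of_nonneg hr0]
        exact hr1
    refine h1.trans ?_
    rw [eval_scale m hH, norm_mul, norm_pow, Complex.norm_real, Real.norm_of_nonneg hr0]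
    have h3 : (r ^ d * ‖eval ζ H‖) ^ 2 ≤ ‖eval ζ H‖ ^ 2 := by
      have h4 : r ^ d * ‖eval ζ H‖ ≤ 1 * ‖eval ζ H‖ :=
        mul_le_mul_of_nonneg_right (pow_le_one₀ hr0 hr1.le) (norm_nonneg _)
      rw [one_mul] at h4
      exact pow_le_pow_left₀ (by positivity) h4 2
    linarith
  by_cases hz0 : z = 0
  · obtain ⟨ζ, hζ⟩ := exists_sph hn
    have h := key ζ hζ 0 le_rfl one_pos
    have h5 : (fun i => ((0 : ℝ) : ℂ) ^ (m i) * ζ i) = z := by
      funext i
      rw [hz0]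
      simp [(hm i).ne']
    rwa [h5] at h
  · obtain ⟨r, hr0, hr1, ζ, hζ, hzζ⟩ := exists_polar m hm z hz0 hz
    have h := key ζ hζ r hr0.le hr1
    have h5 : (fun i => (r : ℂ) ^ (m i) * ζ i) = z := by
      funext i
      exact (hzζ i).symm
    rwa [h5] at h

theorem norm_lt_one {n : ℕ} (m : Fin n → ℕ) (hm : ∀ i, 0 < m i) {d : ℕ} (hd : 1 ≤ d)
    (H : MvPolynomial (Fin n) ℂ) (hH : IsWeightedHomogeneous m H d)
    (hH1 : ∀ z ∈ Sph n, ‖eval z H‖ ≤ 1) (z : Fin n → ℂ) (hz : ∑ i, ‖z i‖ ^ 2 < 1) :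
    ‖eval z H‖ < 1 := by
  by_cases hz0 : z = 0
  · have h := eval_zero_eq m hd hm hH
    have : z = fun _ => 0 := hz0
    rw [this, h, norm_zero]
    exact one_pos
  · obtain ⟨r, hr0, hr1, ζ, hζ, hzζ⟩ := exists_polar m hm z hz0 hz
    have h5 : z = (fun i => (r : ℂ) ^ (m i) * ζ i) := funext hzζ
    rw [h5, eval_scale m hH, norm_mul, norm_pow, Complex.norm_real, Real.norm_of_nonneg hr0.le]
    calc r ^ d * ‖eval ζ H‖ ≤ r ^ d * 1 := mul_le_mul_of_nonneg_left (hH1 ζ hζ) (by positivity)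
      _ < 1 := by
        rw [mul_one]
        exact pow_lt_one₀ hr0.le hr1 (by omega)

/-- real part of the Cayley transform -/
theorem cayley_re {h : ℂ} (hh : ‖h‖ < 1) :
    ((1 + h) / (1 - h)).re = (1 - ‖h‖ ^ 2) / ‖1 - h‖ ^ 2 ∧ 0 < ‖1 - h‖ := by
  have h1 : (1 : ℂ) - h ≠ 0 := by
    intro h0
    have : h = 1 := (sub_eq_zero.1 h0).symm
    rw [this, norm_one] at hh
    exact lt_irrefl _ hh
  refine ⟨?_, norm_pos_iff.2 h1⟩
  rw [Complex.div_re, ← Complex.normSq_eq_norm_sq, ← Complex.normSq_eq_norm_sq, ← add_div]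
  congr 1
  simp only [Complex.normSq_apply, Complex.add_re, Complex.sub_re, Complex.one_re, Complex.add_im,
    Complex.sub_im, Complex.one_im]
  ring

theorem cayley_pos {h : ℂ} (hh : ‖h‖ < 1) : 0 < ((1 + h) / (1 - h)).re := by
  obtain ⟨h1, h2⟩ := cayley_re hh
  rw [h1]
  have : ‖h‖ ^ 2 < 1 := pow_lt_one₀ (norm_nonneg _) hh two_ne_zero
  exact div_pos (by linarith) (by positivity)

theorem differentiableAt_gH {n : ℕ} (H : MvPolynomial (Fin n) ℂ) (z : Cn n)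
    (h2 : (1 : ℂ) - eval (fun i => z i) H ≠ 0) : DifferentiableAt ℂ (gH H) z := by
  have h3 := differentiable_eval H z
  have h4 : DifferentiableAt ℂ (fun z : Cn n => (1 + eval (fun i => z i) H) *
      (1 - eval (fun i => z i) H)⁻¹) z :=
    (h3.const_add 1).fun_mul ((h3.const_sub 1).fun_inv h2)
  have h5 : gH H = fun z : Cn n => (1 + eval (fun i => z i) H) *
      (1 - eval (fun i => z i) H)⁻¹ := by
    funext z
    exact div_eq_mul_inv _ _
  rw [h5]
  exact h4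

/-- a polynomial that vanishes on the ball is zero -/
theorem eq_zero_of_ball {n : ℕ} (p : MvPolynomial (Fin n) ℂ)
    (hp : ∀ z : Fin n → ℂ, ∑ i, ‖z i‖ ^ 2 < 1 → eval z p = 0) : p = 0 := by
  refine MvPolynomial.funext_set (fun _ : Fin n => {w : ℂ | ‖w‖ < 1 / (n + 1 : ℝ)}) ?_ ?_
  · intro i
    refine infinite_of_mem_nhds (0 : ℂ) ?_
    have : {w : ℂ | ‖w‖ < 1 / (n + 1 : ℝ)} = ball (0 : ℂ) (1 / (n + 1 : ℝ)) := by
      ext w
      simp
    rw [this]
    exact ball_mem_nhds _ (by positivity)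
  · intro z hz
    rw [map_zero]
    refine hp z ?_
    have h1 : ∀ i, ‖z i‖ ^ 2 ≤ (1 / (n + 1 : ℝ)) ^ 2 := fun i =>
      pow_le_pow_left₀ (norm_nonneg _) (le_of_lt (hz i (Set.mem_univ i))) 2
    calc ∑ i, ‖z i‖ ^ 2 ≤ ∑ _i : Fin n, (1 / (n + 1 : ℝ)) ^ 2 := Finset.sum_le_sum fun i _ => h1 i
      _ = n * (1 / (n + 1 : ℝ)) ^ 2 := by simp
      _ < 1 := by
        have hn : (0 : ℝ) ≤ n := Nat.cast_nonneg n
        rw [div_pow, one_pow, mul_one_div, div_lt_one (by positivity)]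
        nlinarith

theorem coe_sum {n : ℕ} (z : Cn n) (hz : z ∈ ball (0 : Cn n) 1) :
    ∑ i, ‖(fun i => z i) i‖ ^ 2 < 1 := (mem_ball_iff z).1 hz

theorem zero_eval {n : ℕ} (p : MvPolynomial (Fin n) ℂ) :
    eval (fun i => (0 : Cn n) i) p = eval (fun _ : Fin n => (0 : ℂ)) p := by
  congr 1

end M5

open M5

/-- M5a -/
theorem gH_mem {n : ℕ} (hn : 1 ≤ n) (m : Fin n → ℕ) (hm : ∀ i, 0 < m i) {d : ℕ} (hd : 1 ≤ d)
    (H : MvPolynomial (Fin n) ℂ) (hH : IsWeightedHomogeneous m H d)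
    (hH1 : ∀ z ∈ Sph n, ‖eval z H‖ ≤ 1) : gH H ∈ NB n := by
  have hlt : ∀ z ∈ ball (0 : Cn n) 1, ‖eval (fun i => z i) H‖ < 1 := fun z hz =>
    norm_lt_one m hm hd H hH hH1 _ (coe_sum z hz)
  refine ⟨?_, ?_, ?_⟩
  · intro z hz
    have h1 := (cayley_re (hlt z hz)).2
    have h2 : (1 : ℂ) - eval (fun i => z i) H ≠ 0 := norm_pos_iff.1 h1
    exact (differentiableAt_gH H z h2).differentiableWithinAt
  · intro z hz
    exact cayley_pos (hlt z hz)
  · show (1 + eval (fun i => (0 : Cn n) i) H) / (1 - eval (fun i => (0 : Cn n) i) H) = 1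
    rw [zero_eval, eval_zero_eq m hd hm hH]
    simp

/-- M5b -/
theorem noDom_of_extreme {n : ℕ} (hn : 1 ≤ n) (m : Fin n → ℕ) (hm : ∀ i, 0 < m i) {d : ℕ}
    (hd : 1 ≤ d) (H : MvPolynomial (Fin n) ℂ) (hH : IsWeightedHomogeneous m H d)
    (hH1 : ∀ z ∈ Sph n, ‖eval z H‖ ≤ 1) (hex : IsExtremePoint n (gH H)) : NoDom H := by
  intro p hp
  obtain ⟨⟨hdiff, hre, h0⟩, hext⟩ := hex
  have hlt : ∀ z ∈ ball (0 : Cn n) 1, ‖eval (fun i => z i) H‖ < 1 := fun z hz =>
    norm_lt_one m hm hd H hH hH1 _ (coe_sum z hz)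
  set i₀ : Fin n := ⟨0, hn⟩ with hi₀
  let k : Cn n → ℂ := fun z =>
    (1 / 2 : ℂ) * (z i₀ * eval (fun i => z i) p) / (1 - eval (fun i => z i) H) ^ 2
  have hk : ∀ z ∈ ball (0 : Cn n) 1, ‖k z‖ ≤ (gH H z).re / 2 := by
    intro z hz
    have h1 := dom_ball hn m hm H hH p hp _ (coe_sum z hz)
    obtain ⟨h2, h3⟩ := cayley_re (hlt z hz)
    have h4 : (gH H z).re = (1 - ‖eval (fun i => z i) H‖ ^ 2) /
        ‖1 - eval (fun i => z i) H‖ ^ 2 := h2
    have h5 : ‖z i₀‖ ≤ 1 := by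
      have h6 := coe_sum z hz
      have h7 : ‖z i₀‖ ^ 2 ≤ ∑ i, ‖(fun i => z i) i‖ ^ 2 :=
        Finset.single_le_sum (f := fun i => ‖(fun i => z i) i‖ ^ 2)
          (fun i _ => by positivity) (Finset.mem_univ i₀)
      nlinarith [norm_nonneg (z i₀)]
    rw [h4]
    show ‖(1 / 2 : ℂ) * (z i₀ * eval (fun i => z i) p) / (1 - eval (fun i => z i) H) ^ 2‖ ≤ _
    rw [norm_div, norm_mul, norm_mul, norm_pow]
    have h8 : ‖(1 / 2 : ℂ)‖ = 1 / 2 := by norm_num
    rw [h8, div_div, div_le_div_iff₀ (by positivity) (by positivity)]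
    have h9 : ‖z i₀‖ * ‖eval (fun i => z i) p‖ ≤ 1 - ‖eval (fun i => z i) H‖ ^ 2 := by
      calc ‖z i₀‖ * ‖eval (fun i => z i) p‖ ≤ 1 * ‖eval (fun i => z i) p‖ :=
            mul_le_mul_of_nonneg_right h5 (norm_nonneg _)
        _ ≤ _ := by rw [one_mul]; exact h1
    have h10 : 0 ≤ ‖1 - eval (fun i => z i) H‖ ^ 2 := by positivity
    calc 1 / 2 * (‖z i₀‖ * ‖eval (fun i => z i) p‖) * (‖1 - eval (fun i => z i) H‖ ^ 2 * 2)
        = (‖z i₀‖ * ‖eval (fun i => z i) p‖) * ‖1 - eval (fun i => z i) H‖ ^ 2 := by ring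
      _ ≤ _ := mul_le_mul_of_nonneg_right h9 h10
  have hkd : DifferentiableOn ℂ k (ball 0 1) := by
    intro z hz
    have h1 := (cayley_re (hlt z hz)).2
    have h2 : (1 : ℂ) - eval (fun i => z i) H ≠ 0 := norm_pos_iff.1 h1
    have h3 := differentiable_eval H z
    have h4 := differentiable_eval p z
    have h5 : DifferentiableAt ℂ (fun z : Cn n => z i₀) z :=
      (EuclideanSpace.proj (𝕜 := ℂ) i₀).differentiable z
    have h6 : DifferentiableAt ℂ (fun z : Cn n => (1 / 2 : ℂ) * (z i₀ * eval (fun i => z i) p) *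
        ((1 - eval (fun i => z i) H) ^ 2)⁻¹) z :=
      ((h5.fun_mul h4).const_mul _).fun_mul (((h3.const_sub 1).fun_pow 2).fun_inv
        (pow_ne_zero 2 h2))
    have h7 : k = fun z : Cn n => (1 / 2 : ℂ) * (z i₀ * eval (fun i => z i) p) *
        ((1 - eval (fun i => z i) H) ^ 2)⁻¹ := by
      funext z
      exact div_eq_mul_inv _ _
    rw [h7]
    exact h6.differentiableWithinAt
  have hk0 : k 0 = 0 := by
    show (1 / 2 : ℂ) * ((0 : Cn n) i₀ * eval (fun i => (0 : Cn n) i) p) /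
      (1 - eval (fun i => (0 : Cn n) i) H) ^ 2 = 0
    simp
  have hg1 : (fun z => gH H z + k z) ∈ NB n := by
    refine ⟨hdiff.add hkd, ?_, by show gH H 0 + k 0 = 1; rw [h0, hk0, add_zero]⟩
    intro z hz
    have h1 := hk z hz
    have h2 := hre z hz
    have h3 := (abs_le.1 (Complex.abs_re_le_norm (k z))).1
    rw [Complex.add_re]
    linarith
  have hg2 : (fun z => gH H z - k z) ∈ NB n := by
    refine ⟨hdiff.sub hkd, ?_, by show gH H 0 - k 0 = 1; rw [h0, hk0, sub_zero]⟩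
    intro z hz
    have h1 := hk z hz
    have h2 := hre z hz
    have h3 := (abs_le.1 (Complex.abs_re_le_norm (k z))).2
    rw [Complex.sub_re]
    linarith
  have hkz := hext _ hg1 _ hg2 (1 / 2) (by norm_num) (by norm_num) (by
    intro z _
    push_cast
    ring)
  have hXp : X i₀ * p = 0 := by
    refine eq_zero_of_ball _ fun z hz => ?_
    have hz' : (WithLp.toLp 2 z : Cn n) ∈ ball (0 : Cn n) 1 := (mem_ball_iff _).2 hz
    have h1 := hkz _ hz'
    have h2 : k (WithLp.toLp 2 z) = 0 := by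
      have h3 : gH H (WithLp.toLp 2 z) + k (WithLp.toLp 2 z) =
        gH H (WithLp.toLp 2 z) - k (WithLp.toLp 2 z) := h1
      have h4 : (2 : ℂ) * k (WithLp.toLp 2 z) = 0 := by linear_combination h3
      rcases mul_eq_zero.1 h4 with h | h
      · norm_num at h
      · exact h
    have h5 : (1 / 2 : ℂ) * (z i₀ * eval z p) / (1 - eval z H) ^ 2 = 0 := h2
    have h6 := (cayley_re (hlt _ hz')).2
    have h7 : (1 : ℂ) - eval z H ≠ 0 := norm_pos_iff.1 h6
    rw [div_eq_zero_iff] at h5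
    rcases h5 with h5 | h5
    · rcases mul_eq_zero.1 h5 with h | h
      · norm_num at h
      · rw [map_mul, eval_X]
        exact h
    · exact absurd h5 (pow_ne_zero 2 h7)
  rcases mul_eq_zero.1 hXp with h | h
  · exact absurd h (X_ne_zero i₀)
  · exact h

/-- M5c -/
theorem notPower_of_extreme {n : ℕ} (hn : 1 ≤ n) (m : Fin n → ℕ) (hm : ∀ i, 0 < m i) {d : ℕ}
    (hd : 1 ≤ d) (H : MvPolynomial (Fin n) ℂ) (hH : IsWeightedHomogeneous m H d)
    (hH1 : ∀ z ∈ Sph n, ‖eval z H‖ ≤ 1) (hex : IsExtremePoint n (gH H)) : NotPower H := by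
  have hnd := noDom_of_extreme hn m hm hd H hH hH1 hex
  rintro ⟨k, hk2, P, hP⟩
  obtain ⟨⟨hdiff, hre, h0⟩, hext⟩ := hex
  have hlt : ∀ z ∈ ball (0 : Cn n) 1, ‖eval (fun i => z i) H‖ < 1 := fun z hz =>
    norm_lt_one m hm hd H hH hH1 _ (coe_sum z hz)
  have hHP : ∀ z : Fin n → ℂ, eval z H = (eval z P) ^ k := by
    intro z
    rw [hP, map_pow]
  have hltP : ∀ z ∈ ball (0 : Cn n) 1, ‖eval (fun i => z i) P‖ < 1 := by
    intro z hz
    by_contra hcon
    push Not at hcon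
    have h1 := hlt z hz
    rw [hHP, norm_pow] at h1
    have := one_le_pow₀ hcon (n := k)
    linarith
  have hP0 : eval (fun _ : Fin n => (0 : ℂ)) P = 0 := by
    have h1 := eval_zero_eq m hd hm hH
    rw [hHP] at h1
    exact pow_eq_zero_iff (by omega) |>.1 h1
  -- comparison of the real parts
  have hkpos : (0 : ℝ) < k := by
    have : 0 < k := by omega
    exact_mod_cast this
  have hcomp : ∀ z ∈ ball (0 : Cn n) 1, (gH P z).re ≤ (k : ℝ) ^ 2 * (gH H z).re := by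
    intro z hz
    set w := eval (fun i => z i) P with hw
    have hw1 : ‖w‖ < 1 := hltP z hz
    have hwk : ‖w ^ k‖ < 1 := by
      have := hlt z hz
      rwa [hHP] at this
    obtain ⟨h1, h2⟩ := cayley_re hw1
    obtain ⟨h3, h4⟩ := cayley_re hwk
    have h5 : (gH P z).re = (1 - ‖w‖ ^ 2) / ‖1 - w‖ ^ 2 := h1
    have h6 : (gH H z).re = (1 - ‖w ^ k‖ ^ 2) / ‖1 - w ^ k‖ ^ 2 := by
      have : gH H z = (1 + w ^ k) / (1 - w ^ k) := by
        show (1 + eval (fun i => z i) H) / (1 - eval (fun i => z i) H) = _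
        rw [hHP]
      rw [this, h3]
    rw [h5, h6, ← mul_div_assoc, div_le_div_iff₀ (by positivity) (by positivity)]
    have h7 : ‖1 - w ^ k‖ ≤ k * ‖1 - w‖ := by
      have h8 : (1 : ℂ) - w ^ k = (1 - w) * ∑ i ∈ Finset.range k, w ^ i := by
        rw [mul_comm, geom_sum_mul_neg]
      rw [h8, norm_mul, mul_comm]
      refine mul_le_mul_of_nonneg_right ?_ (norm_nonneg _)
      calc ‖∑ i ∈ Finset.range k, w ^ i‖ ≤ ∑ i ∈ Finset.range k, ‖w ^ i‖ := norm_sum_le _ _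
        _ ≤ ∑ _i ∈ Finset.range k, (1 : ℝ) := Finset.sum_le_sum fun i _ => by
          rw [norm_pow]
          exact pow_le_one₀ (norm_nonneg _) hw1.le
        _ = k := by simp
    have h9 : 1 - ‖w‖ ^ 2 ≤ 1 - ‖w ^ k‖ ^ 2 := by
      have h10 : ‖w ^ k‖ ≤ ‖w‖ := by
        rw [norm_pow]
        calc ‖w‖ ^ k ≤ ‖w‖ ^ 1 := pow_le_pow_of_le_one (norm_nonneg _) hw1.le (by omega)
          _ = ‖w‖ := pow_one _
      have := pow_le_pow_left₀ (norm_nonneg _) h10 2
      linarith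
    have h11 : 0 ≤ 1 - ‖w‖ ^ 2 := by
      have : ‖w‖ ^ 2 < 1 := pow_lt_one₀ (norm_nonneg _) hw1 two_ne_zero
      linarith
    calc (1 - ‖w‖ ^ 2) * ‖1 - w ^ k‖ ^ 2 ≤ (1 - ‖w‖ ^ 2) * (k * ‖1 - w‖) ^ 2 :=
          mul_le_mul_of_nonneg_left (pow_le_pow_left₀ (norm_nonneg _) h7 2) h11
      _ ≤ (1 - ‖w ^ k‖ ^ 2) * (k * ‖1 - w‖) ^ 2 :=
          mul_le_mul_of_nonneg_right h9 (by positivity)
      _ = (k : ℝ) ^ 2 * (1 - ‖w ^ k‖ ^ 2) * ‖1 - w‖ ^ 2 := by ring
  -- the two functions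
  have hgPd : DifferentiableOn ℂ (gH P) (ball 0 1) := by
    intro z hz
    have h1 := (cayley_re (hltP z hz)).2
    have h2 : (1 : ℂ) - eval (fun i => z i) P ≠ 0 := norm_pos_iff.1 h1
    exact (differentiableAt_gH P z h2).differentiableWithinAt
  have hgP0 : gH P 0 = 1 := by
    show (1 + eval (fun i => (0 : Cn n) i) P) / (1 - eval (fun i => (0 : Cn n) i) P) = 1
    rw [zero_eval, hP0]
    simp
  have hgP : gH P ∈ NB n := ⟨hgPd, fun z hz => cayley_pos (hltP z hz), hgP0⟩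
  set t : ℝ := 1 / (2 * (k : ℝ) ^ 2) with ht
  have ht0 : 0 < t := by positivity
  have ht1 : t < 1 := by
    rw [ht, div_lt_one (by positivity)]
    have : (1 : ℝ) ≤ k := by
      have : 1 ≤ k := by omega
      exact_mod_cast this
    nlinarith
  have h1t : (0 : ℝ) < 1 - t := by linarith
  have h1tc : ((1 : ℂ) - t) ≠ 0 := by
    have : ((1 - t : ℝ) : ℂ) ≠ 0 := by exact_mod_cast h1t.ne'
    rwa [Complex.ofReal_sub, Complex.ofReal_one] at this
  have hg2 : (fun z => (gH H z - t * gH P z) / (1 - t)) ∈ NB n := by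
    refine ⟨?_, ?_, ?_⟩
    · have h1 := (hdiff.fun_sub (hgPd.const_mul (t : ℂ))).mul_const ((1 : ℂ) - t)⁻¹
      have h2 : (fun z => (gH H z - t * gH P z) / (1 - t)) =
          fun z => (gH H z - t * gH P z) * ((1 : ℂ) - t)⁻¹ := by
        funext z
        exact div_eq_mul_inv _ _
      rw [h2]
      exact h1
    · intro z hz
      have h1 : (gH H z - t * gH P z) / (1 - t) =
          (((1 - t)⁻¹ : ℝ) : ℂ) * (gH H z - t * gH P z) := by
        push_cast
        field_simp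
      show 0 < ((gH H z - t * gH P z) / (1 - t)).re
      rw [h1, Complex.re_ofReal_mul, Complex.sub_re, Complex.re_ofReal_mul]
      refine mul_pos (inv_pos.2 h1t) ?_
      have h2 := hcomp z hz
      have h3 := hre z hz
      have h4 : t * (gH P z).re ≤ (gH H z).re / 2 := by
        calc t * (gH P z).re ≤ t * ((k : ℝ) ^ 2 * (gH H z).re) :=
              mul_le_mul_of_nonneg_left h2 ht0.le
          _ = (gH H z).re / 2 := by
            rw [ht]
            field_simp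
      linarith
    · show (gH H 0 - t * gH P 0) / (1 - t) = 1
      rw [h0, hgP0, mul_one, div_self h1tc]
  have heq := hext _ hgP _ hg2 t ht0 ht1 (by
    intro z _
    show gH H z = t * gH P z + (1 - t) * ((gH H z - t * gH P z) / (1 - t))
    field_simp
    ring)
  -- so `P = P ^ k` on the ball
  have hPz : P = 0 := by
    refine eq_zero_of_ball _ fun z hz => ?_
    have hz' : (WithLp.toLp 2 z : Cn n) ∈ ball (0 : Cn n) 1 := (mem_ball_iff _).2 hz
    have h1 : gH P (WithLp.toLp 2 z) = (gH H (WithLp.toLp 2 z) - t * gH P (WithLp.toLp 2 z)) /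
      (1 - t) := heq _ hz'
    have h2 : gH P (WithLp.toLp 2 z) = gH H (WithLp.toLp 2 z) := by
      rw [eq_div_iff h1tc] at h1
      linear_combination h1
    have h3 : (1 + eval z P) / (1 - eval z P) = (1 + (eval z P) ^ k) / (1 - (eval z P) ^ k) := by
      have : (1 + eval z P) / (1 - eval z P) = (1 + eval z H) / (1 - eval z H) := h2
      rwa [hHP] at this
    set w := eval z P with hw
    have hw1 : ‖w‖ < 1 := hltP _ hz'
    have hwk : ‖w ^ k‖ < 1 := by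
      rw [norm_pow]
      exact pow_lt_one₀ (norm_nonneg _) hw1 (by omega)
    have h4 : (1 : ℂ) - w ≠ 0 := norm_pos_iff.1 (cayley_re hw1).2
    have h5 : (1 : ℂ) - w ^ k ≠ 0 := norm_pos_iff.1 (cayley_re hwk).2
    rw [div_eq_div_iff h4 h5] at h3
    have h6 : w = w ^ k := by linear_combination h3 / 2
    have h7 : w * (1 - w ^ (k - 1)) = 0 := by
      have : w ^ k = w * w ^ (k - 1) := by
        rw [← pow_succ']
        congr 1
        omega
      rw [mul_sub, mul_one, ← this, ← h6, sub_self]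
    rcases mul_eq_zero.1 h7 with h | h
    · exact h
    · exfalso
      have h8 : w ^ (k - 1) = 1 := (sub_eq_zero.1 h).symm
      have h9 : ‖w ^ (k - 1)‖ < 1 := by
        rw [norm_pow]
        exact pow_lt_one₀ (norm_nonneg _) hw1 (by omega)
      rw [h8, norm_one] at h9
      exact lt_irrefl _ h9
  have hH0 : H = 0 := by
    rw [hP, hPz]
    exact zero_pow (by omega)
  have h1 := hnd 1 (by
    intro z _
    rw [hH0]
    simp)
  exact one_ne_zero h1

end

end Pool.Agent.Lib.MP_6ff8d9_an.Hom
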