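import Pool.Agent.Lib.MP_6ff8d9_an_h11.Rows
import Pool.Agent.Lib.K708.HolAn

/-! # MP_6ff8d9 PERRON, row VFIELD: the transversal vector field -/

open Metric Filter Topology InnerProductSpace Set
open scoped ComplexConjugate Manifold ContDiff

namespace Pool.Agent.Lib.MP_6ff8d9_an.H42

open Pool.Agent.Lib.MP_6ff8d9_an Pool.Agent.Lib.MP_6ff8d9_an.H11

noncomputable section

variable {n : ℕ}

/-- the vector representing the derivative -/
def av (f : Cn n → ℂ) (y : Cn n) : Cn n := (toDual ℂ (Cn n)).symm (fderiv ℂ f y)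

/-- the denominator -/
def den (f : Cn n → ℂ) (y : Cn n) : ℝ := ‖av f y‖ ^ 2 - ‖fderiv ℂ f y y‖ ^ 2

/-- the vector field -/
def xi (f : Cn n → ℂ) (y : Cn n) : Cn n :=
  (den f y)⁻¹ • (av f y - conj (fderiv ℂ f y y) • y)

theorem inner_av (f : Cn n → ℂ) (y v : Cn n) : inner ℂ (av f y) v = fderiv ℂ f y v := by
  unfold av
  exact toDual_symm_apply

theorem norm_av (f : Cn n → ℂ) (y : Cn n) : ‖av f y‖ = ‖fderiv ℂ f y‖ := by
  unfold av
  exact LinearIsometryEquiv.norm_map _ _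

theorem apply_xi (f : Cn n → ℂ) (y : Cn n) (hd : den f y ≠ 0) : fderiv ℂ f y (xi f y) = 1 := by
  have h1 : fderiv ℂ f y (av f y) = ((‖av f y‖ ^ 2 : ℝ) : ℂ) := by
    rw [← inner_av, inner_self_eq_norm_sq_to_K]
    push_cast
    rfl
  have h2 : conj (fderiv ℂ f y y) * fderiv ℂ f y y = ((‖fderiv ℂ f y y‖ ^ 2 : ℝ) : ℂ) := by
    rw [mul_comm, Complex.mul_conj, Complex.normSq_eq_norm_sq]
  unfold xi
  rw [← Complex.coe_smul, map_smul, map_sub, map_smul, smul_eq_mul, smul_eq_mul, h1, h2,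
    ← Complex.ofReal_sub]
  change ((((den f y)⁻¹ : ℝ) : ℂ)) * ((den f y : ℝ) : ℂ) = 1
  rw [← Complex.ofReal_mul, inv_mul_cancel₀ hd, Complex.ofReal_one]

theorem inner_xi (f : Cn n → ℂ) (y : Cn n) :
    inner ℂ y (xi f y) = (((den f y)⁻¹ * (1 - ‖y‖ ^ 2) : ℝ) : ℂ) * conj (fderiv ℂ f y y) := by
  unfold xi
  have h1 : inner ℂ y (av f y) = conj (fderiv ℂ f y y) := by
    rw [← inner_conj_symm, inner_av]
  rw [← Complex.coe_smul, inner_smul_right, inner_sub_right, inner_smul_right, h1,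
    inner_self_eq_norm_sq_to_K]
  push_cast
  simp only [Complex.coe_algebraMap]
  ring

theorem contDiff_dual :
    ContDiff ℝ 1 (fun φ : Cn n →L[ℂ] ℂ => (toDual ℂ (Cn n)).symm φ) := by
  apply IsBoundedLinearMap.contDiff
  refine ⟨⟨fun x y => map_add _ x y, fun r x => ?_⟩, 1, one_pos, fun x => ?_⟩
  · have h := (toDual ℂ (Cn n)).symm.map_smulₛₗ ((r : ℝ) : ℂ) x
    rw [Complex.coe_smul] at h
    rw [h]
    simp
  · rw [LinearIsometryEquiv.norm_map, one_mul]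

/-- everything is of class `C¹` -/
theorem contDiffOn_parts {f : Cn n → ℂ} {Ω : Set (Cn n)} (hΩ : IsOpen Ω)
    (hf : DifferentiableOn ℂ f Ω) :
    ContDiffOn ℝ 1 (av f) Ω ∧ ContDiffOn ℝ 1 (fun y => fderiv ℂ f y y) Ω ∧
      ContDiffOn ℝ 1 (den f) Ω := by
  have h0 : ContDiffOn ℂ ω f Ω := Pool.Agent.K708.holo_omega hΩ hf
  have h1 : ContDiffOn ℂ 1 (fderiv ℂ f) Ω := h0.fderiv_of_isOpen hΩ (by simp)
  have h2 : ContDiffOn ℝ 1 (fderiv ℂ f) Ω := h1.restrict_scalars ℝ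
  have h3 : ContDiffOn ℝ 1 (av f) Ω := contDiff_dual.comp_contDiffOn h2
  have h4 : ContDiffOn ℝ 1 (fun y => fderiv ℂ f y y) Ω :=
    (h1.clm_apply contDiffOn_id).restrict_scalars ℝ
  refine ⟨h3, h4, ?_⟩
  unfold den
  exact (h3.norm_sq ℂ).sub (h4.norm_sq ℂ)

theorem contDiffOn_xi {f : Cn n → ℂ} {Ω : Set (Cn n)} (hΩ : IsOpen Ω)
    (hf : DifferentiableOn ℂ f Ω) : ContDiffOn ℝ 1 (xi f) {y ∈ Ω | 0 < den f y} := by
  obtain ⟨h1, h2, h3⟩ := contDiffOn_parts hΩ hf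
  have hsub : {y ∈ Ω | 0 < den f y} ⊆ Ω := fun y hy => hy.1
  have h4 : ContDiffOn ℝ 1 (fun y => (den f y)⁻¹) {y ∈ Ω | 0 < den f y} :=
    (h3.mono hsub).inv fun y hy => hy.2.ne'
  have h5 : ContDiffOn ℝ 1 (fun y => conj (fderiv ℂ f y y)) {y ∈ Ω | 0 < den f y} :=
    Complex.conjCLE.contDiff.comp_contDiffOn (h2.mono hsub)
  exact h4.smul ((h1.mono hsub).sub (h5.smul contDiffOn_id))

theorem vfield : VFIELD := by
  intro n f CV a ρ hS hρ hK
  obtain ⟨Ω, hΩ, hcb, hf⟩ := hS.an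
  obtain ⟨h1, h2, h3⟩ := contDiffOn_parts hΩ hf
  set K1 : Set (Cn n) := {z : Cn n | ‖z‖ ≤ 1 ∧ f z ∈ closedBall a ρ} with hK1
  set O : Set (Cn n) := {y ∈ Ω | 0 < den f y} with hO
  have hOo : IsOpen O := h3.continuousOn.isOpen_inter_preimage hΩ isOpen_Ioi
  have hK1e : K1 = closedBall 0 1 ∩ f ⁻¹' closedBall a ρ := by
    ext z
    simp [hK1]
  have hK1c : IsCompact K1 := by
    rw [hK1e]
    exact (isCompact_closedBall _ _).of_isClosed_subset
      ((hf.continuousOn.mono hcb).preimage_isClosed_of_isClosed isClosed_closedBall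
        isClosed_closedBall) inter_subset_left
  have hK1O : K1 ⊆ O := by
    intro y hy
    have hyb : y ∈ closedBall (0 : Cn n) 1 := by simpa using hy.1
    refine ⟨hcb hyb, ?_⟩
    have hfy := hK hy.2
    have hlt := hS.crit y hy.1 (by simpa using hfy.1) hfy.2
    unfold den
    rw [norm_av]
    have h0 : 0 ≤ ‖fderiv ℂ f y y‖ := norm_nonneg _
    nlinarith
  obtain ⟨K3, hK3c, hK13, hK3O⟩ := exists_compact_between hK1c hOo hK1O
  obtain ⟨K2, hK2c, hK32, hK2O⟩ := exists_compact_between hK3c hOo hK3O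
  obtain ⟨χ, hχ1, hχ0, -⟩ := exists_contMDiffMap_one_nhds_of_subset_interior (n := 1)
    𝓘(ℝ, Cn n) hK3c.isClosed hK32
  have hχd : ContDiff ℝ 1 (χ : Cn n → ℝ) := χ.contMDiff.contDiff
  have hχK : ∀ y ∈ K3, χ y = 1 := fun y hy => hχ1.self_of_nhdsSet y hy
  have hξ := contDiffOn_xi hΩ hf
  obtain ⟨C, hC⟩ := hK3c.exists_bound_of_continuousOn
    (f := fun y => (den f y)⁻¹ * ‖fderiv ℂ f y y‖) (by
      refine ContinuousOn.mul ?_ ?_
      · refine (h3.continuousOn.mono fun y hy => (hK3O hy).1).inv₀ fun y hy => ?_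
        exact (hK3O hy).2.ne'
      · exact (h2.continuousOn.mono fun y hy => (hK3O hy).1).norm)
  refine ⟨fun y => χ y • xi f y, interior K3, C, ?_, ?_, isOpen_interior, hK13, ?_, ?_⟩
  · rw [contDiff_iff_contDiffAt]
    intro y
    by_cases hy : y ∈ O
    · exact (hχd.contDiffAt).smul (hξ.contDiffAt (hOo.mem_nhds hy))
    · have h4 : (fun y => χ y • xi f y) =ᶠ[𝓝 y] fun _ => 0 := by
        have : K2ᶜ ∈ 𝓝 y := hK2c.isClosed.isOpen_compl.mem_nhds fun h => hy (hK2O h)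
        filter_upwards [this] with z hz
        rw [hχ0 z hz, zero_smul]
      exact contDiffAt_const.congr_of_eventuallyEq h4
  · refine HasCompactSupport.intro hK2c fun y hy => ?_
    rw [hχ0 y hy, zero_smul]
  · intro y hy
    have hy3 := interior_subset hy
    refine ⟨(hf y (hK3O hy3).1).differentiableAt (hΩ.mem_nhds (hK3O hy3).1), ?_⟩
    dsimp only
    rw [hχK y hy3, one_smul]
    exact apply_xi f y (hK3O hy3).2.ne'
  · intro y hy hy1
    have hy3 := interior_subset hy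
    dsimp only
    rw [hχK y hy3, one_smul, inner_xi, norm_mul, RCLike.norm_conj, Complex.norm_real,
      Real.norm_eq_abs]
    have h5 : 0 < den f y := (hK3O hy3).2
    have h6 : 0 ≤ 1 - ‖y‖ ^ 2 := by
      have := norm_nonneg y
      nlinarith
    rw [abs_of_nonneg (by positivity)]
    have h7 := hC y hy3
    rw [Real.norm_eq_abs, abs_of_nonneg (by positivity)] at h7
    calc (den f y)⁻¹ * (1 - ‖y‖ ^ 2) * ‖fderiv ℂ f y y‖
        = ((den f y)⁻¹ * ‖fderiv ℂ f y y‖) * (1 - ‖y‖ ^ 2) := by ring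
      _ ≤ C * (1 - ‖y‖ ^ 2) := mul_le_mul_of_nonneg_right h7 h6

end

end Pool.Agent.Lib.MP_6ff8d9_an.H42
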