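import Pool.Agent.Lib.MP_6ff8d9_an_h21r.Prime
import Pool.Agent.Lib.MP_6ff8d9_an_h82.Green
import Pool.Agent.Lib.MP_6ff8d9_an_h77.Mult

/-! # MP_6ff8d9 PRIME, row FACT: two inequivalent points of a fibre give a factorisation -/

open Metric Filter Topology Set
open scoped ComplexConjugate ContDiff

namespace Pool.Agent.Lib.MP_6ff8d9_an.H42F

open Pool.Agent.Lib.MP_6ff8d9_an Pool.Agent.Lib.MP_6ff8d9_an.H11 Pool.Agent.Lib.MP_6ff8d9_an.P69

noncomputable section

variable {n : ℕ}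

/-- an inequality which holds frequently near a point of continuity holds at the point -/
theorem freq_le {f g : Cn n → ℝ} {p : Cn n} (hf : ContinuousAt f p) (hg : ContinuousAt g p)
    (h : ∃ᶠ z in 𝓝 p, f z ≤ g z) : f p ≤ g p := by
  by_contra hlt
  push Not at hlt
  obtain ⟨z, h1, h2⟩ := (h.and_eventually (hg.eventually_lt hf hlt)).exists
  exact absurd h1 (not_le.2 h2)

/-- `mob w0` is holomorphic on the disc -/
theorem mob_diff {w0 w : ℂ} (h0 : ‖w0‖ < 1) (h : ‖w‖ < 1) : DifferentiableAt ℂ (mob w0) w := by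
  unfold mob
  exact ((differentiableAt_id.sub_const w0).div
    ((differentiableAt_id.const_mul (conj w0)).const_sub 1) (H82L.den_ne h0 h)).const_mul _

theorem mob_self (w0 : ℂ) : mob w0 w0 = 0 := by simp [mob]

/-- the logarithm of the modulus of a holomorphic function without zero -/
theorem lre_neg_log {M : Cn n → ℂ} {z : Cn n} (hM : ∀ᶠ y in 𝓝 z, DifferentiableAt ℂ M y)
    (h0 : M z ≠ 0) : LRe (fun y => -Real.log ‖M y‖) z := by
  have hc : ContinuousAt M z := hM.self_of_nhds.continuousAt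
  have h1 : ContinuousAt (fun y => M y / M z) z := hc.div_const _
  have h2 : ∀ᶠ y in 𝓝 z, M y / M z ∈ Complex.slitPlane := by
    apply h1.eventually_mem
    rw [div_self h0]
    exact Complex.isOpen_slitPlane.mem_nhds (by simp)
  have h3 : ∀ᶠ y in 𝓝 z, M y ≠ 0 := hc.eventually_ne h0
  refine ⟨fun y => -(Complex.log (M y / M z) + (Real.log ‖M z‖ : ℝ)), ?_⟩
  filter_upwards [hM, h2, h3] with y hy1 hy2 hy3
  have hd1 : DifferentiableAt ℂ (fun y => M y / M z) y := by
    simp only [div_eq_mul_inv]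
    exact hy1.mul_const _
  have hd2 : DifferentiableAt ℂ (fun y => Complex.log (M y / M z)) y := hd1.clog hy2
  refine ⟨(hd2.add_const _).fun_neg, ?_⟩
  rw [Complex.neg_re, Complex.add_re, Complex.log_re, Complex.ofReal_re, norm_div,
    Real.log_div (norm_ne_zero_iff.2 hy3) (norm_ne_zero_iff.2 h0)]
  ring

theorem fact (hG : GREEN) : FACT := by
  intro n F e E hH hR z1 hz1 z2 hz2 h12 hnE
  have hBo : IsOpen (ball (0 : Cn n) 1) := isOpen_ball
  have hFat : ∀ z ∈ ball (0 : Cn n) 1, DifferentiableAt ℂ F z := fun z hz =>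
    (hH.an z hz).differentiableAt (hBo.mem_nhds hz)
  set w0 := F z1 with hw0
  have h0 : ‖w0‖ < 1 := hH.lt z1 hz1.1
  obtain ⟨v, T, C, ρ, hρ, hT1, hTo, hTo', hz1T, hz2T, hv⟩ :=
    hG n F (Oe F e) E hR (fun z hz => hH.lt z hz.1) z1 hz1 z2 hz2 h12 hnE
  -- the function whose zero set is removed
  have hFe : DifferentiableOn ℂ (fun z => fderiv ℂ F z e) (ball 0 1) := by
    have h1 : ContDiffOn ℂ ω F (ball 0 1) := Pool.Agent.K708.holo_omega hBo hH.an
    have h2 : ContDiffOn ℂ 1 (fderiv ℂ F) (ball 0 1) := h1.fderiv_of_isOpen hBo (by simp)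
    exact (h2.differentiableOn (by simp)).clm_apply (differentiableOn_const e)
  set Φ : Cn n → ℂ := fun z => fderiv ℂ F z e * (F z - w0) with hΦ
  have hΦd : DifferentiableOn ℂ Φ (ball 0 1) := hFe.mul (hH.an.sub_const w0)
  have hΦO : ∀ z ∈ ball (0 : Cn n) 1, Φ z ≠ 0 → z ∈ Oe F e ∧ F z ≠ w0 := by
    intro z hz hne
    refine ⟨⟨hz, fun h => hne ?_⟩, fun h => hne ?_⟩
    · rw [hΦ]; simp [h]
    · rw [hΦ]; simp [h]
  have hΦne : ∃ z ∈ ball (0 : Cn n) 1, Φ z ≠ 0 := by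
    have h1 : HasDerivAt (fun t : ℂ => F (z1 + t • e)) (fderiv ℂ F z1 e) 0 := by
      have h2 : HasDerivAt (fun t : ℂ => z1 + t • e) e 0 := by
        simpa using ((hasDerivAt_id (0 : ℂ)).smul_const e).const_add z1
      have h3 : HasFDerivAt F (fderiv ℂ F z1) (z1 + (0 : ℂ) • e) := by
        simpa using (hFat z1 hz1.1).hasFDerivAt
      exact h3.comp_hasDerivAt 0 h2
    have h4 : ∀ᶠ t : ℂ in 𝓝[≠] 0, F (z1 + t • e) ≠ w0 := by
      exact h1.eventually_ne hz1.2
    have hc : Tendsto (fun t : ℂ => z1 + t • e) (𝓝[≠] 0) (𝓝 z1) := by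
      have h5 : Tendsto (fun t : ℂ => z1 + t • e) (𝓝 0) (𝓝 (z1 + (0 : ℂ) • e)) :=
        (by fun_prop : Continuous fun t : ℂ => z1 + t • e).tendsto 0
      rw [zero_smul, add_zero] at h5
      exact h5.mono_left nhdsWithin_le_nhds
    have h6 : ∀ᶠ t : ℂ in 𝓝[≠] 0, z1 + t • e ∈ Oe F e := hc.eventually (hR.op.mem_nhds hz1)
    obtain ⟨t, ht1, ht2⟩ := (h4.and h6).exists
    exact ⟨z1 + t • e, ht2.1, mul_ne_zero ht2.2 (sub_ne_zero.2 ht1)⟩
  have hfreq : ∀ p ∈ ball (0 : Cn n) 1, ∃ᶠ z in 𝓝 p, z ∈ ball (0 : Cn n) 1 ∧ Φ z ≠ 0 :=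
    fun p hp => freq_ne hΦd hΦne hp
  have hsub : ∀ p ∈ ball (0 : Cn n) 1, ∀ δ : ℝ, 0 < δ → ∃ z ∈ ball p δ, Φ z ≠ 0 := by
    intro p hp δ hδ
    obtain ⟨z, h1, h2⟩ := ((hfreq p hp).and_eventually (ball_mem_nhds p hδ)).exists
    exact ⟨z, h2, h1.2⟩
  set q : Cn n → ℝ := qf w0 F with hq
  have hmobd : ∀ z ∈ ball (0 : Cn n) 1, DifferentiableAt ℂ (fun z => mob w0 (F z)) z :=
    fun z hz => (mob_diff h0 (hH.lt z hz)).comp z (hFat z hz)
  have hmobc : ∀ z ∈ ball (0 : Cn n) 1, ContinuousAt (fun z => mob w0 (F z)) z :=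
    fun z hz => (hmobd z hz).continuousAt
  have hexpq : ∀ z ∈ ball (0 : Cn n) 1, F z ≠ w0 → Real.exp (-q z) = ‖mob w0 (F z)‖ := by
    intro z hz hne
    rw [hq]
    unfold qf
    rw [neg_neg, Real.exp_log (norm_pos_iff.2 (H82L.mob_ne h0 (hH.lt z hz) hne))]
  -- local solutions
  have hloc : ∀ p ∈ ball (0 : Cn n) 1, ∃ w : Cn n → ℂ, ∀ᶠ z in 𝓝 p,
      DifferentiableAt ℂ w z ∧ (z ∉ {z | Φ z = 0} → Real.exp (-v z) = ‖w z‖) := by
    intro p hp
    -- from a bound on a ball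
    have hbdd : ∀ (δ M : ℝ), 0 < δ → ball p δ ⊆ ball 0 1 →
        (∀ z ∈ ball p δ, Φ z ≠ 0 → v z ≤ M) → ∃ w : Cn n → ℂ, ∀ᶠ z in 𝓝 p,
        DifferentiableAt ℂ w z ∧ (z ∉ {z | Φ z = 0} → Real.exp (-v z) = ‖w z‖) := by
      intro δ M hδ hδB hM
      obtain ⟨k, hkd, hk⟩ := exloc n p δ M Φ v hδ (hΦd.mono hδB) (hsub p hp δ hδ)
        (fun z hz hz0 => by
          obtain ⟨h1, h2⟩ := hΦO z (hδB hz) hz0
          obtain ⟨-, h3, -⟩ := hv z h1 h2
          rw [abs_of_nonneg h3]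
          exact hM z hz hz0)
        (fun z hz hz0 => by
          obtain ⟨h1, h2⟩ := hΦO z (hδB hz) hz0
          exact (hv z h1 h2).1)
      refine ⟨fun z => Complex.exp (-k z), ?_⟩
      filter_upwards [ball_mem_nhds p hδ] with z hz
      refine ⟨((hkd z hz).differentiableAt (isOpen_ball.mem_nhds hz)).neg.cexp, fun hz0 => ?_⟩
      rw [Complex.norm_exp, Complex.neg_re, hk z hz hz0]
    by_cases hFp : F p = w0
    · -- a zero of `mob w0 F`
      have h1 : ∀ᶠ z in 𝓝 p, z ∈ ball (0 : Cn n) 1 ∧ F z ∈ ball w0 ρ := by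
        refine Filter.Eventually.and (hBo.eventually_mem hp) ?_
        apply (hFat p hp).continuousAt.eventually_mem
        rw [hFp]
        exact ball_mem_nhds _ hρ
      obtain ⟨δ, hδ, hδs⟩ := Metric.eventually_nhds_iff_ball.1 h1
      have hδB : ball p δ ⊆ ball 0 1 := fun z hz => (hδs z hz).1
      have hcon := conn n p δ Φ (hΦd.mono hδB)
      have hcover : {z | z ∈ ball p δ ∧ Φ z ≠ 0} ⊆ T ∪
          ({z | z ∈ Oe F e ∧ F z ∈ ball w0 ρ} \ T) := by
        intro z hz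
        by_cases hzT : z ∈ T
        · exact Or.inl hzT
        · exact Or.inr ⟨⟨(hΦO z (hδB hz.1) hz.2).1, (hδs z hz.1).2⟩, hzT⟩
      have hdisj : Disjoint T ({z | z ∈ Oe F e ∧ F z ∈ ball w0 ρ} \ T) := disjoint_sdiff_right
      rcases hcon.subset_or_subset hTo hTo' hdisj hcover with hin | hout
      · -- inside `T`
        obtain ⟨k, hkd, hk⟩ := exloc n p δ |C| Φ (fun z => v z - q z) hδ (hΦd.mono hδB)
          (hsub p hp δ hδ)
          (fun z hz hz0 => by
            obtain ⟨h1, h2⟩ := hΦO z (hδB hz) hz0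
            obtain ⟨-, -, h4, h5, -⟩ := hv z h1 h2
            have h6 := h5 (hin ⟨hz, hz0⟩)
            have h7 := le_abs_self C
            rw [abs_le]
            constructor
            · change -|C| ≤ v z - qf w0 F z
              linarith
            · change v z - qf w0 F z ≤ |C|
              have := abs_nonneg C
              linarith)
          (fun z hz hz0 => by
            obtain ⟨h1, h2⟩ := hΦO z (hδB hz) hz0
            obtain ⟨k1, hk1⟩ := (hv z h1 h2).1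
            obtain ⟨k2, hk2⟩ := lre_neg_log (M := fun z => mob w0 (F z)) (z := z)
              (by filter_upwards [hBo.mem_nhds (hδB hz)] with y hy using hmobd y hy)
              (H82L.mob_ne h0 (hH.lt z (hδB hz)) h2)
            refine ⟨fun y => k1 y - k2 y, ?_⟩
            filter_upwards [hk1, hk2] with y hy1 hy2
            refine ⟨hy1.1.sub hy2.1, ?_⟩
            rw [Complex.sub_re, ← hy1.2, ← hy2.2]
            rfl)
        refine ⟨fun z => mob w0 (F z) * Complex.exp (-k z), ?_⟩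
        filter_upwards [ball_mem_nhds p hδ] with z hz
        refine ⟨(hmobd z (hδB hz)).mul
          ((hkd z hz).differentiableAt (isOpen_ball.mem_nhds hz)).neg.cexp, fun hz0 => ?_⟩
        rw [norm_mul, Complex.norm_exp, Complex.neg_re, ← hk z hz hz0,
          ← hexpq z (hδB hz) (hΦO z (hδB hz) hz0).2, ← Real.exp_add]
        congr 1
        ring
      · exact hbdd δ C hδ hδB fun z hz hz0 => by
          obtain ⟨h1, h2⟩ := hΦO z (hδB hz) hz0
          obtain ⟨-, -, -, -, h5⟩ := hv z h1 h2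
          exact h5 (hout ⟨hz, hz0⟩).2
    · -- `q` is bounded near `p`
      have hM0 : mob w0 (F p) ≠ 0 := H82L.mob_ne h0 (hH.lt p hp) hFp
      have hqc : ContinuousAt q p := by
        rw [hq]
        unfold qf
        exact ((hmobc p hp).norm.log (norm_ne_zero_iff.2 hM0)).neg
      have h1 : ∀ᶠ z in 𝓝 p, z ∈ ball (0 : Cn n) 1 ∧ q z < q p + 1 :=
        Filter.Eventually.and (hBo.eventually_mem hp) (hqc.eventually_lt continuousAt_const (by linarith))
      obtain ⟨δ, hδ, hδs⟩ := Metric.eventually_nhds_iff_ball.1 h1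
      have hδB : ball p δ ⊆ ball 0 1 := fun z hz => (hδs z hz).1
      exact hbdd δ (q p + 1) hδ hδB fun z hz hz0 => by
        obtain ⟨h1, h2⟩ := hΦO z (hδB hz) hz0
        obtain ⟨-, -, h4, -⟩ := hv z h1 h2
        have := (hδs z hz).2
        change v z ≤ q z at h4
        linarith
  -- the global solution
  obtain ⟨W, hWd, hW⟩ := mult n {z | Φ z = 0} (fun z => Real.exp (-v z))
    (fun p hp => mem_closure_iff_frequently.2 (hfreq p hp)) hloc
  have hWc : ∀ z ∈ ball (0 : Cn n) 1, ContinuousAt W z := fun z hz =>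
    ((hWd z hz).differentiableAt (hBo.mem_nhds hz)).continuousAt
  have hW' : ∀ z ∈ ball (0 : Cn n) 1, Φ z ≠ 0 → Real.exp (-v z) = ‖W z‖ := fun z hz h =>
    hW z hz h
  have hWne : ∀ z ∈ ball (0 : Cn n) 1, Φ z ≠ 0 → W z ≠ 0 := fun z hz h => by
    rw [← norm_pos_iff, ← hW' z hz h]
    exact Real.exp_pos _
  have hqle : ∀ z ∈ ball (0 : Cn n) 1, Φ z ≠ 0 → ‖mob w0 (F z)‖ ≤ ‖W z‖ := fun z hz h => by
    obtain ⟨h1, h2⟩ := hΦO z hz h
    rw [← hW' z hz h, ← hexpq z hz h2]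
    exact Real.exp_le_exp.2 (neg_le_neg (hv z h1 h2).2.2.1)
  have hW1 : ∀ z ∈ ball (0 : Cn n) 1, ‖W z‖ ≤ 1 := fun p hp =>
    freq_le (f := fun z => ‖W z‖) (g := fun _ => 1) (hWc p hp).norm continuousAt_const
      ((hfreq p hp).mono fun z hz => by
        obtain ⟨h1, h2⟩ := hΦO z hz.1 hz.2
        change ‖W z‖ ≤ 1
        rw [← hW' z hz.1 hz.2]
        exact Real.exp_le_one_iff.2 (neg_nonpos.2 (hv z h1 h2).2.1))
  -- the cofactor
  obtain ⟨H, hHd, hHe⟩ := riem n 0 1 1 Φ (fun z => mob w0 (F z) / W z) one_pos hΦd hΦne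
    (fun z hz => by
      have hd1 : DifferentiableAt ℂ W z := (hWd z hz.1).differentiableAt (hBo.mem_nhds hz.1)
      have hd2 : DifferentiableAt ℂ (fun z => (W z)⁻¹) z := hd1.fun_inv (hWne z hz.1 hz.2)
      have hd3 : DifferentiableAt ℂ (fun z => mob w0 (F z) * (W z)⁻¹) z :=
        (hmobd z hz.1).fun_mul hd2
      exact hd3.differentiableWithinAt)
    (fun z hz hz0 => by
      rw [norm_div]
      exact (div_le_one (norm_pos_iff.2 (hWne z hz hz0))).2 (hqle z hz hz0))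
  have hHc : ∀ z ∈ ball (0 : Cn n) 1, ContinuousAt H z := fun z hz =>
    ((hHd z hz).differentiableAt (hBo.mem_nhds hz)).continuousAt
  have hH1 : ∀ z ∈ ball (0 : Cn n) 1, ‖H z‖ ≤ 1 := fun p hp =>
    freq_le (f := fun z => ‖H z‖) (g := fun _ => 1) (hHc p hp).norm continuousAt_const
      ((hfreq p hp).mono fun z hz => by
        change ‖H z‖ ≤ 1
        rw [← hHe z hz.1 hz.2, norm_div]
        exact (div_le_one (norm_pos_iff.2 (hWne z hz.1 hz.2))).2 (hqle z hz.1 hz.2))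
  have hprod : ∀ z ∈ ball (0 : Cn n) 1, mob w0 (F z) = W z * H z := fun p hp => by
    have h1 := freq_le (f := fun z => ‖mob w0 (F z) - W z * H z‖) (g := fun _ => 0) (p := p)
      ((hmobc p hp).sub ((hWc p hp).mul (hHc p hp))).norm continuousAt_const
      ((hfreq p hp).mono fun z hz => by
        change ‖mob w0 (F z) - W z * H z‖ ≤ 0
        rw [← hHe z hz.1 hz.2, mul_div_cancel₀ _ (hWne z hz.1 hz.2), sub_self, norm_zero])
    exact sub_eq_zero.1 (norm_le_zero_iff.1 h1)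
  refine ⟨W, H, hWd, hHd, fun z hz => ⟨hW1 z hz, hH1 z hz, hprod z hz⟩, ?_, ?_, ?_⟩
  · -- `W z1 = 0`
    have h1 := freq_le (f := fun z => ‖W z‖) (g := fun z => Real.exp C * ‖mob w0 (F z)‖) (p := z1)
      (hWc z1 hz1.1).norm (continuousAt_const.mul (hmobc z1 hz1.1).norm)
      (((hfreq z1 hz1.1).and_eventually (hTo.mem_nhds hz1T)).mono fun z hz => by
        obtain ⟨h1, h2⟩ := hΦO z hz.1.1 hz.1.2
        obtain ⟨-, -, -, h5, -⟩ := hv z h1 h2
        have h6 : q z - C ≤ v z := h5 hz.2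
        change ‖W z‖ ≤ Real.exp C * ‖mob w0 (F z)‖
        rw [← hW' z hz.1.1 hz.1.2, ← hexpq z hz.1.1 h2, ← Real.exp_add]
        exact Real.exp_le_exp.2 (by linarith))
    have h2 : ‖W z1‖ ≤ 0 := by
      have h3 : mob w0 (F z1) = 0 := by rw [← hw0]; exact mob_self w0
      simpa [h3] using h1
    exact norm_le_zero_iff.1 h2
  · -- `W z2 ≠ 0`
    have hz2' : z2 ∈ {z | z ∈ Oe F e ∧ F z ∈ ball w0 ρ} \ T := by
      refine ⟨⟨hz2, ?_⟩, hz2T⟩
      rw [← h12]
      exact mem_ball_self hρ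
    have h1 := freq_le (f := fun _ => Real.exp (-C)) (g := fun z => ‖W z‖) (p := z2)
      continuousAt_const (hWc z2 hz2.1).norm
      (((hfreq z2 hz2.1).and_eventually (hTo'.mem_nhds hz2')).mono fun z hz => by
        obtain ⟨h1, h2⟩ := hΦO z hz.1.1 hz.1.2
        obtain ⟨-, -, -, -, h5⟩ := hv z h1 h2
        change Real.exp (-C) ≤ ‖W z‖
        rw [← hW' z hz.1.1 hz.1.2]
        exact Real.exp_le_exp.2 (neg_le_neg (h5 hz.2.2)))
    rw [← norm_pos_iff]
    exact (Real.exp_pos _).trans_le h1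
  · -- `H z1 ≠ 0`
    have h1 := freq_le (f := fun _ => Real.exp (-C)) (g := fun z => ‖H z‖) (p := z1)
      continuousAt_const (hHc z1 hz1.1).norm
      (((hfreq z1 hz1.1).and_eventually (hTo.mem_nhds hz1T)).mono fun z hz => by
        obtain ⟨h1, h2⟩ := hΦO z hz.1.1 hz.1.2
        obtain ⟨-, -, -, h5, -⟩ := hv z h1 h2
        have h6 : q z - C ≤ v z := h5 hz.2
        change Real.exp (-C) ≤ ‖H z‖
        rw [← hHe z hz.1.1 hz.1.2, norm_div, ← hW' z hz.1.1 hz.1.2, ← hexpq z hz.1.1 h2,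
          ← Real.exp_sub]
        exact Real.exp_le_exp.2 (by linarith))
    rw [← norm_pos_iff]
    exact (Real.exp_pos _).trans_le h1

end

end Pool.Agent.Lib.MP_6ff8d9_an.H42F
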