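import Pool.Agent.Lib.MP_6ff8d9_an_h82.RowsL
import Pool.Agent.Lib.MP_6ff8d9_an_h21r.Ext2
import Pool.Agent.Lib.K708.HolAn

/-! # MP_6ff8d9 THEOREM L, row SCONST: weighted sums over the roots are locally constant -/

open Metric Filter Topology Set
open scoped ContDiff

namespace Pool.Agent.Lib.MP_6ff8d9_an.H42

open Pool.Agent.Lib.MP_6ff8d9_an

noncomputable section

/-- the weighted logarithmic derivative -/
def QQ {n : ℕ} (F h : (Fin n → ℂ) → ℂ) (c : ℂ) (e y : Fin n → ℂ) : ℂ :=
  h y * (fderiv ℂ F y e / (F y - c))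

theorem isOpen_Bn (n : ℕ) : IsOpen (H22.Bn n) := by
  unfold H22.Bn
  exact isOpen_lt (by fun_prop) continuous_const

/-- derivative of `QQ` in the direction `v` -/
theorem hasFDerivAt_QQ {n : ℕ} {F h : (Fin n → ℂ) → ℂ} {c : ℂ} (e : Fin n → ℂ) {y : Fin n → ℂ}
    (hF : ContDiffAt ℂ ω F y) (hh : DifferentiableAt ℂ h y) (hy : F y ≠ c) :
    HasFDerivAt (QQ F h c e)
      (h y • ((F y - c)⁻¹ • (fderiv ℂ (fderiv ℂ F) y).flip e -
        (fderiv ℂ F y e * ((F y - c) ^ 2)⁻¹) • fderiv ℂ F y) +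
        (fderiv ℂ F y e / (F y - c)) • fderiv ℂ h y) y := by
  have hF1 : HasFDerivAt F (fderiv ℂ F y) y := (hF.differentiableAt (by simp)).hasFDerivAt
  have hF2 : HasFDerivAt (fderiv ℂ F) (fderiv ℂ (fderiv ℂ F) y) y :=
    ((hF.fderiv_right (m := ω) (by simp)).differentiableAt (by simp)).hasFDerivAt
  have h3 : HasFDerivAt (fun y => fderiv ℂ F y e) ((fderiv ℂ (fderiv ℂ F) y).flip e) y := by
    have := hF2.clm_apply (hasFDerivAt_const e y)
    simpa using this
  have h4 : HasFDerivAt (fun y => (F y - c)⁻¹) (-(((F y - c) ^ 2)⁻¹) • fderiv ℂ F y) y := by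
    have := (hasFDerivAt_inv (sub_ne_zero.2 hy)).comp y (hF1.sub_const c)
    refine HasFDerivAt.congr_fderiv (f := fun y => (F y - c)⁻¹) this ?_
    ext v
    simp [mul_comm]
  have h5 := (hh.hasFDerivAt).mul (h3.mul h4)
  have e1 : QQ F h c e = h * ((fun y => fderiv ℂ F y e) * fun y => (F y - c)⁻¹) := by
    funext y
    simp [QQ, div_eq_mul_inv]
  rw [e1]
  refine h5.congr_fderiv ?_
  ext v
  simp [div_eq_mul_inv]
  ring

theorem sconst : H82L.SCONST := by
  intro n F h z₀ e r hF hh hW hr hmem hne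
  have hB := isOpen_Bn n
  set c := F z₀ with hc
  have hFω : ContDiffOn ℂ ω F (H22.Bn n) := Pool.Agent.K708.holo_omega hB hF
  have hFat : ∀ y ∈ H22.Bn n, ContDiffAt ℂ ω F y := fun y hy => hFω.contDiffAt (hB.mem_nhds hy)
  have hhat : ∀ y ∈ H22.Bn n, DifferentiableAt ℂ h y := fun y hy =>
    (hh y hy).differentiableAt (hB.mem_nhds hy)
  set V : Set (Fin n → ℂ) := {y | y ∈ H22.Bn n ∧ F y ≠ c} with hV
  have hVo : IsOpen V := by
    have := hF.continuousOn.isOpen_inter_preimage hB (isOpen_compl_singleton (x := c))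
    exact this
  set V' : Set ((Fin n → ℂ) × ℂ) := V ×ˢ univ with hV'
  have hV'o : IsOpen V' := hVo.prod isOpen_univ
  set G : (Fin n → ℂ) × ℂ → ℂ := fun p => p.2 * Complex.I * QQ F h c e p.1 with hG
  have hQd : DifferentiableOn ℂ (QQ F h c e) V := fun y hy =>
    (hasFDerivAt_QQ e (hFat y hy.1) (hhat y hy.1) hy.2).differentiableAt.differentiableWithinAt
  have hGd : DifferentiableOn ℂ G V' := by
    have h1 : DifferentiableOn ℂ (fun p : (Fin n → ℂ) × ℂ => QQ F h c e p.1) V' :=
      hQd.comp differentiable_fst.differentiableOn fun p hp => hp.1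
    exact (differentiable_snd.mul_const Complex.I).differentiableOn.mul h1
  have hGω : ContDiffOn ℂ ω G V' := Pool.Agent.K708.holo_omega hV'o hGd
  have hG' : ContinuousOn (fderiv ℂ G) V' := hGω.continuousOn_fderiv_of_isOpen hV'o (by simp)
  set γ : ℝ → (Fin n → ℂ) × ℂ := fun θ => (circleMap 0 r θ • e, circleMap 0 r θ) with hγ
  have hγc : Continuous γ := by
    have h1 : Continuous (circleMap (0 : ℂ) r) := continuous_circleMap 0 r
    exact (h1.smul continuous_const).prodMk h1
  have h2π : (0 : ℝ) ≤ 2 * Real.pi := by positivity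
  obtain ⟨δ, hδ, hpar⟩ := H21R.param (𝕜 := ℂ) hV'o
    (fun p hp => ((hGd p hp).differentiableAt (hV'o.mem_nhds hp)).hasFDerivAt) hG' hγc h2π
    (z0 := (z₀, (0 : ℂ))) (by
      intro θ _
      have hn : ‖circleMap (0 : ℂ) r θ‖ = r := by simp [abs_of_pos hr]
      exact ⟨⟨hmem _ hn.le, hne _ hn⟩, mem_univ _⟩)
  -- the circle integral as a function of the base point
  have hJ : ∀ z : Fin n → ℂ, (∮ l in C(0, r), h (z + l • e) *
      (fderiv ℂ F (z + l • e) e / (F (z + l • e) - c))) =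
      ∫ θ in (0 : ℝ)..2 * Real.pi, G ((z, (0 : ℂ)) + γ θ) := by
    intro z
    unfold circleIntegral
    refine intervalIntegral.integral_congr fun θ _ => ?_
    simp only [deriv_circleMap, smul_eq_mul, hG, hγ, Prod.mk_add_mk, zero_add, QQ]
  have hconst : ∀ z ∈ ball z₀ δ, HasFDerivAt (fun z : Fin n → ℂ =>
      ∫ θ in (0 : ℝ)..2 * Real.pi, G ((z, (0 : ℂ)) + γ θ)) (0 : (Fin n → ℂ) →L[ℂ] ℂ) z := by
    intro z hz
    have hz' : (z, (0 : ℂ)) ∈ ball (z₀, (0 : ℂ)) δ := by
      rw [mem_ball, Prod.dist_eq, dist_self]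
      exact max_lt hz hδ
    obtain ⟨hin, hder⟩ := hpar _ hz'
    have h1 : HasFDerivAt (fun z : Fin n → ℂ => (z, (0 : ℂ)))
        (ContinuousLinearMap.inl ℂ (Fin n → ℂ) ℂ) z :=
      (hasFDerivAt_id z).prodMk (hasFDerivAt_const 0 z)
    have h2 := HasFDerivAt.comp (g := fun p : (Fin n → ℂ) × ℂ =>
      ∫ θ in (0 : ℝ)..2 * Real.pi, G (p + γ θ)) z hder h1
    refine h2.congr_fderiv ?_
    ext v
    have hint : IntervalIntegrable (fun θ => fderiv ℂ G ((z, (0 : ℂ)) + γ θ))
        MeasureTheory.volume 0 (2 * Real.pi) := by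
      refine ContinuousOn.intervalIntegrable ?_
      rw [uIcc_of_le h2π]
      exact hG'.comp (continuous_const.add hγc).continuousOn fun θ hθ => hin θ hθ
    rw [ContinuousLinearMap.comp_apply, ContinuousLinearMap.inl_apply,
      ContinuousLinearMap.intervalIntegral_apply hint, zero_apply]
    -- the integrand is an exact derivative along the circle
    have hex : (∮ l in C(0, r), fderiv ℂ (QQ F h c e) (z + l • e) v) = 0 := by
      refine circleIntegral.integral_eq_zero_of_hasDerivWithinAt hr.le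
        (f := fun l => QQ F h c v (z + l • e)) fun l hl => ?_
      obtain ⟨θ, hθI, hθ⟩ : ∃ θ ∈ Icc (0 : ℝ) (2 * Real.pi), circleMap 0 r θ = l := by
        have := image_circleMap_Ioc (0 : ℂ) r
        rw [abs_of_pos hr] at this
        rw [← this] at hl
        obtain ⟨θ, hθ, rfl⟩ := hl
        exact ⟨θ, Ioc_subset_Icc_self hθ, rfl⟩
      have hy : z + l • e ∈ V := by
        have := (hin θ hθI).1
        simpa [hγ, hθ] using this
      have h3 := (hasFDerivAt_QQ (h := h) v (hFat _ hy.1) (hhat _ hy.1) hy.2).comp_hasDerivAt l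
        (((hasDerivAt_id l).smul_const e).const_add z)
      have h4 := (hasFDerivAt_QQ (h := h) e (hFat _ hy.1) (hhat _ hy.1) hy.2).fderiv
      have hsym : IsSymmSndFDerivAt ℂ F (z + l • e) :=
        (hFat _ hy.1).isSymmSndFDerivAt (by simp)
      have h5 := hsym e v
      have h6 := hW _ hy.1 e v
      refine (HasDerivAt.congr_deriv h3 ?_).hasDerivWithinAt
      rw [h4]
      simp only [one_smul, add_apply, smul_apply, sub_apply,
        ContinuousLinearMap.flip_apply, smul_eq_mul, h5]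
      linear_combination (F (z + l • e) - c)⁻¹ * h6
    have hcongr : (∮ l in C(0, r), fderiv ℂ (QQ F h c e) (z + l • e) v) =
        ∫ θ in (0 : ℝ)..2 * Real.pi, (fderiv ℂ G ((z, (0 : ℂ)) + γ θ)) (v, 0) := by
      unfold circleIntegral
      refine intervalIntegral.integral_congr fun θ hθ => ?_
      rw [uIcc_of_le h2π] at hθ
      have hy : z + circleMap 0 r θ • e ∈ V := by
        have := (hin θ hθ).1
        simpa [hγ] using this
      have h3 := ((hQd _ hy).differentiableAt (hVo.mem_nhds hy)).hasFDerivAt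
      have h4 : HasFDerivAt (fun p : (Fin n → ℂ) × ℂ => QQ F h c e p.1)
          ((fderiv ℂ (QQ F h c e) (z + circleMap 0 r θ • e)).comp
            (ContinuousLinearMap.fst ℂ (Fin n → ℂ) ℂ))
          (z + circleMap 0 r θ • e, circleMap 0 r θ) :=
        HasFDerivAt.comp (g := QQ F h c e) (f := fun p : (Fin n → ℂ) × ℂ => p.1)
          (z + circleMap 0 r θ • e, circleMap 0 r θ) h3 hasFDerivAt_fst
      have h5 : HasFDerivAt (fun p : (Fin n → ℂ) × ℂ => p.2 * Complex.I)
          (Complex.I • ContinuousLinearMap.snd ℂ (Fin n → ℂ) ℂ)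
          (z + circleMap 0 r θ • e, circleMap 0 r θ) := hasFDerivAt_snd.mul_const Complex.I
      have h6 := (h5.mul h4).fderiv
      have e0 : (z, (0 : ℂ)) + γ θ = (z + circleMap 0 r θ • e, circleMap 0 r θ) := by
        simp [hγ]
      have e1 : G = (fun p : (Fin n → ℂ) × ℂ => p.2 * Complex.I) *
          fun p => QQ F h c e p.1 := rfl
      simp only
      rw [e0, e1, h6]
      simp [deriv_circleMap]
    rw [← hcongr, hex]
  rw [eventually_iff_exists_mem]
  refine ⟨ball z₀ δ, ball_mem_nhds z₀ hδ, fun z hz => ?_⟩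
  rw [hJ, hJ]
  refine isOpen_ball.is_const_of_fderiv_eq_zero (𝕜 := ℂ)
    (convex_ball z₀ δ).isPreconnected
    (fun y hy => (hconst y hy).differentiableAt.differentiableWithinAt)
    (fun y hy => (hconst y hy).fderiv) hz (mem_ball_self hδ)

end

end Pool.Agent.Lib.MP_6ff8d9_an.H42
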